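import Pool.Agent.CorD.Deg

/-!
# Functions of small degree on the lower curve
-/

set_option autoImplicit false

open Module Polynomial

noncomputable section

namespace Pool.Agent.CorD

open Pool.Agent.EllHiggs

section

variable (k L M : Type) [Field k] [Field L] [Field M] [Algebra k L] [Algebra k M] [Algebra L M]
  [IsScalarTower k L M] [FiniteDimensional L M]

-- BEGIN ncl
/-- `F = normalClosure L M (AlgebraicClosure M)` (an `IntermediateField L (AlgebraicClosure M)`;
Mathlib: `normalClosure.normal`, `normalClosure.is_finiteDimensional`, the instance
`normalClosure.algebra` for `Algebra M F`), finite over `L`, hence over `M`. -/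
theorem ncl : ∃ (F : Type) (_ : Field F) (_ : Algebra k F) (_ : Algebra L F) (_ : Algebra M F),
    IsScalarTower k L F ∧ IsScalarTower k M F ∧ IsScalarTower L M F ∧ Normal L F ∧
      FiniteDimensional M F := by
  have hal : Algebra.IsAlgebraic L (AlgebraicClosure M) := Algebra.IsAlgebraic.trans L M _
  have hac : IsAlgClosure L (AlgebraicClosure M) := ⟨inferInstance, hal⟩
  have hno : Normal L (AlgebraicClosure M) := IsAlgClosure.normal L (AlgebraicClosure M)
  have hn : Normal L (IntermediateField.normalClosure L M (AlgebraicClosure M)) := inferInstance
  have hf : FiniteDimensional L (IntermediateField.normalClosure L M (AlgebraicClosure M)) :=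
    inferInstance
  have ht : IsScalarTower L M (IntermediateField.normalClosure L M (AlgebraicClosure M)) :=
    inferInstance
  let a : Algebra k (IntermediateField.normalClosure L M (AlgebraicClosure M)) :=
    ((algebraMap L (IntermediateField.normalClosure L M (AlgebraicClosure M))).comp
      (algebraMap k L)).toAlgebra
  have h1 : @IsScalarTower k L (IntermediateField.normalClosure L M (AlgebraicClosure M)) _ _
      a.toSMul :=
    @IsScalarTower.of_algebraMap_eq k L (IntermediateField.normalClosure L M (AlgebraicClosure M))
      _ _ _ _ _ a fun x => rfl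
  have h2 : @IsScalarTower k M (IntermediateField.normalClosure L M (AlgebraicClosure M)) _ _
      a.toSMul := by
    refine @IsScalarTower.of_algebraMap_eq k M
      (IntermediateField.normalClosure L M (AlgebraicClosure M)) _ _ _ _ _ a fun x => ?_
    have e1 : @algebraMap k (IntermediateField.normalClosure L M (AlgebraicClosure M)) _ _ a x =
        algebraMap L (IntermediateField.normalClosure L M (AlgebraicClosure M))
          (algebraMap k L x) := rfl
    rw [e1, IsScalarTower.algebraMap_apply L M
      (IntermediateField.normalClosure L M (AlgebraicClosure M)),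
      ← IsScalarTower.algebraMap_apply k L M]
  exact ⟨IntermediateField.normalClosure L M (AlgebraicClosure M), inferInstance, a, inferInstance,
    inferInstance, h1, h2, ht, hn, Module.Finite.of_restrictScalars_finite L M _⟩
-- END ncl

end

section

variable {k L M : Type} [Field k] [Field L] [Field M] [Algebra k L] [Algebra k M] [Algebra L M]
  [IsScalarTower k L M] [FiniteDimensional L M] [IsAlgClosed k]

-- BEGIN push_ex
private theorem push_ex_const {a : L} (ha : ¬ Transcendental k a) :
    ∃ c : k, a = algebraMap k L c := by
  have h1 : IsAlgebraic k a := by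
    unfold Transcendental at ha
    exact not_not.1 ha
  have h2 : IsIntegral k a := h1.isIntegral
  have h3 : (minpoly k a).degree = 1 :=
    IsAlgClosed.degree_eq_one_of_irreducible k (minpoly.irreducible h2)
  obtain ⟨c, hc⟩ := minpoly.mem_range_of_degree_eq_one k a h3
  exact ⟨c, hc.symm⟩

/-- If no coefficient is transcendental over `k` then all are constants (`k` is algebraically
closed: `IsAlgClosed.algebraMap_bijective_of_isIntegral` or `isAlgebraic` elements of a domain are in
the range of `algebraMap k L`), so `minpoly L z` is the image of a nonzero polynomial over `k` with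
root `z`. -/
theorem push_ex {z : M} (hz : Transcendental k z) :
    ∃ i, Transcendental k ((minpoly L z).coeff i) := by
  by_contra hcon
  push Not at hcon
  have h1 : minpoly L z ∈ Polynomial.lifts (algebraMap k L) := by
    rw [Polynomial.lifts_iff_coeff_lifts]
    intro i
    obtain ⟨c, hc⟩ := push_ex_const (hcon i)
    exact ⟨c, hc.symm⟩
  rw [Polynomial.mem_lifts] at h1
  obtain ⟨p, hp⟩ := h1
  apply hz
  refine ⟨p, ?_, ?_⟩
  · intro h0
    rw [h0, Polynomial.map_zero] at hp
    exact minpoly.ne_zero (Algebra.IsIntegral.isIntegral (R := L) z) hp.symm
  · have h2 : aeval z (p.map (algebraMap k L)) = 0 := by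
      rw [hp]
      exact minpoly.aeval L z
    rwa [Polynomial.aeval_map_algebraMap] at h2

/-- an element which is algebraic over `k` is a constant -/
theorem const_of_alg {a : L} (ha : ¬ Transcendental k a) : ∃ c : k, a = algebraMap k L c :=
  push_ex_const ha
-- END push_ex

variable [CharZero k]

-- BEGIN push
private theorem push_root {F : Type} [Field F] [Algebra k F] [Algebra L F] [Algebra M F]
    [IsScalarTower k L F] [IsScalarTower k M F] [IsScalarTower L M F] [Normal L F]
    (z : M) {a : F} (ha : a ∈ ((minpoly L z).map (algebraMap L F)).roots) :
    fdeg k a = fdeg k z * finrank M F := by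
  have h0 : IsIntegral L z := Algebra.IsIntegral.isIntegral z
  have hm : minpoly L (algebraMap M F z) = minpoly L z :=
    minpoly.algebraMap_eq (algebraMap M F).injective z
  have hi : IsIntegral L (algebraMap M F z) := h0.map (IsScalarTower.toAlgHom L M F)
  have hr : aeval a (minpoly L (algebraMap M F z)) = 0 := by
    rw [hm]
    have h1 := (Polynomial.mem_roots'.1 ha).2
    rwa [IsRoot.def, eval_map_algebraMap] at h1
  obtain ⟨σ, hσ⟩ := minpoly.exists_algEquiv_of_root hi.isAlgebraic hr
  have h2 : fdeg k a = fdeg k (algebraMap M F z) := by
    have h3 := fd_map (σ.restrictScalars k) a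
    rw [← h3]
    congr 1
  rw [h2, fd_tower]

/-- `F` from `ncl`, a function field. Over `F` `minpoly L z` is the product of `X - C a` over the multiset
`s` of its roots (`Normal.splits`, monic), `card s = natDegree ≤ finrank L M`. Every root is `σ z` for an
automorphism `σ` of `F` over `L` (`Normal.exists_algEquiv...`, e.g. `minpoly.exists_algEquiv_of_root'`,
`IsConjRoot`), so `fdeg k a = fdeg k (z in F) = fdeg k z * finrank M F` (`fd_map` for `σ` as a
`k`-isomorphism, `fd_tower`). `coef_le`: `fdeg k (coefficient in F) ≤ finrank L M * fdeg k z *
finrank M F`, and the left side is `fdeg k (coefficient) * finrank L F` (`fd_tower`),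
`finrank L F = finrank L M * finrank M F > 0`. -/
theorem push (hL : IsFunField k L) (z : M) (i : ℕ)
    (hc : Transcendental k ((minpoly L z).coeff i)) :
    fdeg k ((minpoly L z).coeff i) ≤ fdeg k z := by
  obtain ⟨F, fF, aK, aL, aM, t1, t2, t3, hN, hfd⟩ := ncl k L M
  have : FiniteDimensional L F := FiniteDimensional.trans L M F
  have hF : IsFunField k F := hL.of_finite
  have h0 : IsIntegral L z := Algebra.IsIntegral.isIntegral z
  have hm : minpoly L (algebraMap M F z) = minpoly L z :=
    minpoly.algebraMap_eq (algebraMap M F).injective z
  have hs : ((minpoly L z).map (algebraMap L F)).Splits := by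
    have := hN.splits (algebraMap M F z)
    rwa [hm] at this
  have hmon : ((minpoly L z).map (algebraMap L F)).Monic := (minpoly.monic h0).map _
  have hp := hs.eq_prod_roots_of_monic hmon
  set s := ((minpoly L z).map (algebraMap L F)).roots with hsdef
  have hco : algebraMap L F ((minpoly L z).coeff i) = (s.map fun a => X - C a).prod.coeff i := by
    rw [← hp, coeff_map]
  have htr : Transcendental k (algebraMap L F ((minpoly L z).coeff i)) :=
    (transcendental_algebraMap_iff (R := k) (S := L) (A := F) (algebraMap L F).injective).2 hc
  have h1 := coef_le hF s i (hco ▸ htr)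
  rw [← hco, fd_tower] at h1
  have h2 : (s.map fun a => fdeg k a).sum = Multiset.card s * (fdeg k z * finrank M F) := by
    rw [Multiset.map_congr rfl (fun a ha => push_root (k := k) z (F := F) ha)]
    rw [Multiset.map_const', Multiset.sum_replicate, smul_eq_mul]
  rw [h2] at h1
  have h3 : Multiset.card s ≤ finrank L M := by
    have h4 : Multiset.card s ≤ ((minpoly L z).map (algebraMap L F)).natDegree := card_roots' _
    rw [natDegree_map] at h4
    exact h4.trans (minpoly.natDegree_le z)
  have h5 : finrank L F = finrank L M * finrank M F := (Module.finrank_mul_finrank L M F).symm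
  have h6 : 0 < finrank L F := finrank_pos
  refine Nat.le_of_mul_le_mul_right ?_ h6
  calc fdeg k ((minpoly L z).coeff i) * finrank L F
      ≤ Multiset.card s * (fdeg k z * finrank M F) := h1
    _ ≤ finrank L M * (fdeg k z * finrank M F) := Nat.mul_le_mul_right _ h3
    _ = fdeg k z * finrank L F := by rw [h5]; ring
-- END push

end

end Pool.Agent.CorD
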