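import Pool.Agent.CorD.Gen
import Pool.Agent.CorD.Nrm

/-!
# The correspondence degree of coverings of large genus
-/

set_option autoImplicit false

open Module Polynomial

noncomputable section

namespace Pool.Agent.CorD

open Pool.Agent.EllHiggs

-- BEGIN gonx
/-- `Nat.sInf_mem` (the set is nonempty: `hK` gives a transcendental element), `Nat.sInf_le`. -/
theorem gonx {k K : Type} [Field k] [Field K] [Algebra k K] (hK : IsFunField k K) :
    (∃ x : K, Transcendental k x ∧ fdeg k x = gon k K) ∧
      (∀ y : K, Transcendental k y → gon k K ≤ fdeg k y) ∧ 0 < gon k K := by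
  have hne : {n | ∃ y : K, Transcendental k y ∧ fdeg k y = n}.Nonempty := by
    obtain ⟨x, hx, -⟩ := hK
    exact ⟨_, x, hx, rfl⟩
  obtain ⟨x, hx, hx'⟩ := Nat.sInf_mem hne
  refine ⟨⟨x, hx, hx'⟩, fun y hy => Nat.sInf_le ⟨y, hy, rfl⟩, ?_⟩
  have h1 : gon k K = fdeg k x := hx'.symm
  rw [h1]
  exact (fd_pos hK x).2 hx
-- END gonx

-- BEGIN rng
/-- `L ≃ s.fieldRange`; the two module structures on `M` correspond
(`Algebra.finrank_eq_of_equiv_equiv`, `Module.Finite.of_equiv_equiv`). -/
theorem rng {k L M : Type} [Field k] [Field L] [Field M] [Algebra k L] [Algebra k M]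
    (s : L →ₐ[k] M) [Algebra L M] (hs : ∀ x, algebraMap L M x = s x)
    [FiniteDimensional s.fieldRange M] :
    FiniteDimensional L M ∧ finrank L M = finrank s.fieldRange M ∧ IsScalarTower k L M := by
  let e : L ≃+* s.fieldRange := (AlgEquiv.ofInjectiveField s).toRingEquiv
  have he : ∀ x : L, ((e x : s.fieldRange) : M) = s x := fun x => rfl
  have he' : ∀ y : s.fieldRange, algebraMap L M (e.symm y) = (y : M) := by
    intro y
    rw [hs, ← he, e.apply_symm_apply]
  refine ⟨?_, ?_, IsScalarTower.of_algebraMap_eq fun x => ?_⟩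
  · exact Module.Finite.of_equiv_equiv e.symm (RingEquiv.refl M) (RingHom.ext fun y => he' y)
  · exact Algebra.finrank_eq_of_equiv_equiv e (RingEquiv.refl M)
      (RingHom.ext fun x => (he x).trans (hs x).symm)
  · rw [hs, s.commutes]
-- END rng

section

variable {k K L : Type} [Field k] [Field K] [Field L] [Algebra k K] [Algebra k L] [Algebra K L]
  [IsScalarTower k K L] [FiniteDimensional K L]

-- BEGIN graph
private theorem graph_fin {k L M : Type} [Field k] [Field L] [Field M] [Algebra k L] [Algebra k M]
    (s : L →ₐ[k] M) [Algebra L M] (hs : ∀ x, algebraMap L M x = s x) [FiniteDimensional L M] :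
    FiniteDimensional s.fieldRange M := by
  let e : L ≃+* s.fieldRange := (AlgEquiv.ofInjectiveField s).toRingEquiv
  have he : ∀ x : L, ((e x : s.fieldRange) : M) = s x := fun x => rfl
  exact Module.Finite.of_equiv_equiv e (RingEquiv.refl M)
    (RingHom.ext fun x => (he x).trans (hs x).symm)

/-- `M = L`, `s = AlgHom.id`, `t = IsScalarTower.toAlgHom k K L`. -/
theorem graph : ∃ Z : Corr k L K, Z.a = 1 ∧ Z.b = finrank K L := by
  have h1 : ∀ x : L, algebraMap L L x = AlgHom.id k L x := fun x => rfl
  have h2 : ∀ x : K, algebraMap K L x = IsScalarTower.toAlgHom k K L x := fun x => rfl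
  have f1 : FiniteDimensional (AlgHom.id k L).fieldRange L := graph_fin (AlgHom.id k L) h1
  have f2 : FiniteDimensional (IsScalarTower.toAlgHom k K L).fieldRange L :=
    graph_fin (IsScalarTower.toAlgHom k K L) h2
  have hg : (AlgHom.id k L).fieldRange ⊔ (IsScalarTower.toAlgHom k K L).fieldRange = ⊤ := by
    have h3 : (AlgHom.id k L).fieldRange = ⊤ := by
      rw [eq_top_iff]
      intro x _
      exact ⟨x, rfl⟩
    rw [h3, top_sup_eq]
  refine ⟨{ M := L
            s := AlgHom.id k L
            t := IsScalarTower.toAlgHom k K L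
            gen := hg
            fs := f1
            ft := f2 }, ?_, ?_⟩
  · have h4 := (rng (AlgHom.id k L) h1).2.1
    rw [finrank_self] at h4
    exact h4.symm
  · exact (rng (IsScalarTower.toAlgHom k K L) h2).2.1.symm
-- END graph

variable [IsAlgClosed k] [CharZero k]

-- BEGIN corrA
/-- Suppose `Z.b ≤ finrank K L - 1`. Let `Algebra L Z.M`, `Algebra K Z.M` be given by `Z.s`, `Z.t`
(`letI := Z.s.toRingHom.toAlgebra`; no tower over `K → L` is needed), `rng`. `x` from `gonx`,
`z = Z.t x`, `fdeg k z = gon * Z.b` (`fd_tower`). `push_ex`, `push`: a transcendental `c : L` with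
`fdeg k c ≤ gon * Z.b ≤ (finrank K L - 1) * gon`. `low` (with `W = K`): `c = algebraMap K L w`,
`fdeg k c = fdeg k w * finrank K L ≥ gon * finrank K L`, contradiction. -/
theorem corrA (hK : IsFunField k K) {γ : ℕ} (hγ : IsGenus k K γ)
    (hB : Big k K L γ ((finrank K L - 1) * gon k K)) (Z : Corr k L K) :
    finrank K L ≤ Z.b := by
  by_contra hlt
  push Not at hlt
  obtain ⟨⟨x, hx, hxg⟩, hmin, hpos⟩ := gonx hK
  have hL : IsFunField k L := IsFunField.of_finite (K := K) hK
  -- degree of `Z.t x`
  have hz : Transcendental k (Z.t x) ∧ fdeg k (Z.t x) = gon k K * Z.b := by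
    let _ : Algebra K Z.M := Z.t.toRingHom.toAlgebra
    obtain ⟨hfd, hfr, hst⟩ := rng Z.t (fun _ => rfl)
    have := hst
    refine ⟨?_, ?_⟩
    · exact (transcendental_algebraMap_iff (R := k) (S := K) (A := Z.M)
        (algebraMap K Z.M).injective (a := x)).2 hx
    · have h1 := fd_tower (k := k) (L := K) (F := Z.M) x
      rw [hfr, hxg] at h1
      exact h1
  let _ : Algebra L Z.M := Z.s.toRingHom.toAlgebra
  obtain ⟨hfd, hfr, hst⟩ := rng Z.s (fun _ => rfl)
  have := hfd
  have := hst
  obtain ⟨i, hi⟩ := push_ex (k := k) (L := L) (M := Z.M) hz.1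
  have h2 := push (k := k) (L := L) (M := Z.M) hL (Z.t x) i hi
  rw [hz.2] at h2
  have h3 : fdeg k ((minpoly L (Z.t x)).coeff i) ≤ (finrank K L - 1) * gon k K := by
    refine h2.trans ?_
    rw [mul_comm]
    exact Nat.mul_le_mul_right _ (by omega)
  obtain ⟨w, hw⟩ := low (k := k) (W := K) (L := L) hK hγ hB hi h3
  have h4 : Transcendental k w := by
    have h5 : Transcendental k (algebraMap K L w) := by rw [hw]; exact hi
    exact (transcendental_algebraMap_iff (R := k) (S := K) (A := L)
      (algebraMap K L).injective (a := w)).1 h5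
  have h6 := fd_tower (k := k) (L := K) (F := L) w
  rw [hw] at h6
  have h7 : gon k K * finrank K L ≤ gon k K * Z.b := by
    calc gon k K * finrank K L ≤ fdeg k w * finrank K L :=
          Nat.mul_le_mul_right _ (hmin w h4)
      _ = fdeg k ((minpoly L (Z.t x)).coeff i) := h6.symm
      _ ≤ gon k K * Z.b := h2
  have h8 := Nat.le_of_mul_le_mul_left h7 hpos
  omega

/-- `graph` and `corrA`; `Z.a ≥ 1`. -/
theorem partA (hK : IsFunField k K) {γ : ℕ} (hγ : IsGenus k K γ)
    (hB : Big k K L γ ((finrank K L - 1) * gon k K)) : corrDeg k L K = finrank K L := by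
  unfold corrDeg
  apply le_antisymm
  · obtain ⟨Z, ha, hb⟩ := graph (k := k) (K := K) (L := L)
    exact Nat.sInf_le ⟨Z, by rw [ha, hb, one_mul]⟩
  · have hne : {n | ∃ Z : Corr k L K, Z.a * Z.b = n}.Nonempty := by
      obtain ⟨Z, _, _⟩ := graph (k := k) (K := K) (L := L)
      exact ⟨_, Z, rfl⟩
    obtain ⟨Z, hZ⟩ := Nat.sInf_mem hne
    rw [← hZ]
    have h1 := corrA hK hγ hB Z
    have h2 : 0 < Z.a := Module.finrank_pos
    exact h1.trans (Nat.le_mul_of_pos_left _ h2)
-- END corrA

end

-- BEGIN prim
/-- Steinitz. There are only finitely many intermediate fields between `E1` and `M` and between `E2`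
and `M` (`Field.exists_primitive_element`, `Field.finite_intermediateField_of_exists_primitive_element`),
`k` is infinite, so there are `c ≠ c'` with the same field `E1 ⊔ k(u + c w) = E1 ⊔ k(u + c' w)` and the
same for `E2` (pigeonhole: `Finite.exists_ne_map_eq_of_infinite` for the pair). This field contains
`(c - c') w`, so `w` and `u`. -/
theorem prim {k M : Type} [Field k] [Field M] [Algebra k M] [CharZero k]
    (E1 E2 : IntermediateField k M) [FiniteDimensional E1 M] [FiniteDimensional E2 M] (u w : M) :
    ∃ c : k, E1 ⊔ IntermediateField.adjoin k {u + algebraMap k M c * w} =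
        E1 ⊔ IntermediateField.adjoin k {u, w} ∧
      E2 ⊔ IntermediateField.adjoin k {u + algebraMap k M c * w} =
        E2 ⊔ IntermediateField.adjoin k {u, w} := by
  have fin : ∀ E : IntermediateField k M, FiniteDimensional E M →
      Finite {F : IntermediateField k M // E ≤ F} := by
    intro E hE
    have : CharZero E := charZero_of_injective_algebraMap (algebraMap k E).injective
    have : Finite (IntermediateField E M) :=
      Field.finite_intermediateField_of_exists_primitive_element E M
        (Field.exists_primitive_element E M)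
    exact Finite.of_equiv _ (IntermediateField.extendScalars.orderIso E).toEquiv.symm
  have := fin E1 inferInstance
  have := fin E2 inferInstance
  have : Infinite k := CharZero.infinite k
  let f : k → {F : IntermediateField k M // E1 ≤ F} × {F : IntermediateField k M // E2 ≤ F} :=
    fun c => (⟨E1 ⊔ IntermediateField.adjoin k {u + algebraMap k M c * w}, le_sup_left⟩,
      ⟨E2 ⊔ IntermediateField.adjoin k {u + algebraMap k M c * w}, le_sup_left⟩)
  obtain ⟨c, c', hne, hf⟩ := Finite.exists_ne_map_eq_of_infinite f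
  have h1 : E1 ⊔ IntermediateField.adjoin k {u + algebraMap k M c * w} =
      E1 ⊔ IntermediateField.adjoin k {u + algebraMap k M c' * w} :=
    congrArg (fun p => (p.1 : IntermediateField k M)) hf
  have h2 : E2 ⊔ IntermediateField.adjoin k {u + algebraMap k M c * w} =
      E2 ⊔ IntermediateField.adjoin k {u + algebraMap k M c' * w} :=
    congrArg (fun p => (p.2 : IntermediateField k M)) hf
  have key : ∀ E : IntermediateField k M,
      E ⊔ IntermediateField.adjoin k {u + algebraMap k M c * w} =
        E ⊔ IntermediateField.adjoin k {u + algebraMap k M c' * w} →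
      E ⊔ IntermediateField.adjoin k {u + algebraMap k M c * w} =
        E ⊔ IntermediateField.adjoin k {u, w} := by
    intro E hE
    have m1 : u + algebraMap k M c * w ∈
        E ⊔ IntermediateField.adjoin k {u + algebraMap k M c * w} :=
      (le_sup_right : IntermediateField.adjoin k {u + algebraMap k M c * w} ≤ _)
        (IntermediateField.mem_adjoin_simple_self k _)
    have m2 : u + algebraMap k M c' * w ∈
        E ⊔ IntermediateField.adjoin k {u + algebraMap k M c * w} := by
      rw [hE]
      exact (le_sup_right : IntermediateField.adjoin k {u + algebraMap k M c' * w} ≤ _)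
        (IntermediateField.mem_adjoin_simple_self k _)
    have hd : algebraMap k M (c - c') ≠ 0 := by
      intro h
      exact hne (sub_eq_zero.1 ((map_eq_zero (algebraMap k M)).1 h))
    have mw : w ∈ E ⊔ IntermediateField.adjoin k {u + algebraMap k M c * w} := by
      have h3 := sub_mem m1 m2
      have h4 : (u + algebraMap k M c * w) - (u + algebraMap k M c' * w) =
          algebraMap k M (c - c') * w := by
        rw [map_sub]; ring
      rw [h4] at h3
      have h5 := mul_mem (IntermediateField.algebraMap_mem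
        (E ⊔ IntermediateField.adjoin k {u + algebraMap k M c * w}) ((c - c')⁻¹)) h3
      rwa [map_inv₀, inv_mul_cancel_left₀ hd] at h5
    have mu : u ∈ E ⊔ IntermediateField.adjoin k {u + algebraMap k M c * w} := by
      have h3 := sub_mem m1 (mul_mem (IntermediateField.algebraMap_mem
        (E ⊔ IntermediateField.adjoin k {u + algebraMap k M c * w}) c) mw)
      rwa [add_sub_cancel_right] at h3
    apply le_antisymm
    · refine sup_le le_sup_left (le_trans ?_ le_sup_right)
      rw [IntermediateField.adjoin_le_iff]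
      rintro _ rfl
      have hu : u ∈ IntermediateField.adjoin k ({u, w} : Set M) :=
        IntermediateField.subset_adjoin k _ (by simp)
      have hw : w ∈ IntermediateField.adjoin k ({u, w} : Set M) :=
        IntermediateField.subset_adjoin k _ (by simp)
      exact add_mem hu (mul_mem (IntermediateField.algebraMap_mem _ c) hw)
    · refine sup_le le_sup_left ?_
      rw [IntermediateField.adjoin_le_iff]
      rintro x hx
      rcases hx with rfl | hx
      · exact mu
      · rw [Set.mem_singleton_iff] at hx
        rw [hx]; exact mw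
  exact ⟨c, key E1 h1, key E2 h2⟩
-- END prim

-- BEGIN cnt
/-- `P = minpoly L z` has degree `finrank L M` (`hz`); `natDegree (minpoly W z) ≤ natDegree Q = natDegree P`
(`minpoly.min`/`natDegree_le_of_dvd`, `aeval z Q = aeval z P = 0`) and `P` divides the image of
`minpoly W z`. So `finrank W (W(z)) = finrank L M`; `finrank W (W(z)) * finrank (W(z)) M = finrank W M =
finrank W L * finrank L M`. -/
theorem cnt {W L M : Type} [Field W] [Field L] [Field M] [Algebra W L] [Algebra W M]
    [Algebra L M] [IsScalarTower W L M] [FiniteDimensional W L] [FiniteDimensional L M] {z : M}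
    (hz : IntermediateField.adjoin L {z} = ⊤) {Q : W[X]} (hQ : Q.Monic)
    (hQ' : Q.map (algebraMap W L) = minpoly L z) :
    finrank (IntermediateField.adjoin W {z}) M = finrank W L := by
  have : FiniteDimensional W M := Module.Finite.trans L M
  have hiW : IsIntegral W z := IsIntegral.of_finite W z
  have hiL : IsIntegral L z := IsIntegral.of_finite L z
  have h1 : finrank W (IntermediateField.adjoin W {z}) = (minpoly W z).natDegree :=
    IntermediateField.adjoin.finrank hiW
  have h2 : finrank L M = (minpoly L z).natDegree := by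
    rw [← IntermediateField.adjoin.finrank hiL, hz, IntermediateField.finrank_top']
  have hz0 : aeval z Q = 0 := by
    have h3 : aeval z (Q.map (algebraMap W L)) = 0 := by
      rw [hQ']
      exact minpoly.aeval L z
    rwa [aeval_map_algebraMap] at h3
  have h3 : (minpoly W z).natDegree ≤ Q.natDegree :=
    natDegree_le_of_dvd (minpoly.dvd W z hz0) hQ.ne_zero
  have h4 : Q.natDegree = (minpoly L z).natDegree := by
    rw [← hQ', natDegree_map]
  have h5 : (minpoly L z).natDegree ≤ (minpoly W z).natDegree := by
    rw [← natDegree_map (algebraMap W L) (p := minpoly W z)]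
    refine natDegree_le_of_dvd (minpoly.dvd L z ?_) ?_
    · rw [aeval_map_algebraMap]
      exact minpoly.aeval W z
    · exact (Polynomial.map_ne_zero_iff (algebraMap W L).injective).2 (minpoly.ne_zero hiW)
  have h6 : finrank W (IntermediateField.adjoin W {z}) = finrank L M := by
    rw [h1, h2]
    omega
  have h7 : finrank W (IntermediateField.adjoin W {z}) *
      finrank (IntermediateField.adjoin W {z}) M = finrank W M :=
    Module.finrank_mul_finrank W (IntermediateField.adjoin W {z}) M
  have h8 : finrank W L * finrank L M = finrank W M := Module.finrank_mul_finrank W L M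
  have h9 : 0 < finrank L M := Module.finrank_pos
  rw [h6] at h7
  have h10 : finrank L M * finrank (IntermediateField.adjoin W {z}) M =
      finrank L M * finrank W L := by
    rw [h7, ← h8, mul_comm]
  exact Nat.eq_of_mul_eq_mul_left h9 h10
-- END cnt

section

variable {k K W L : Type} [Field k] [Field K] [Field W] [Field L] [Algebra k K] [Algebra k W]
  [Algebra k L] [Algebra K W] [Algebra W L] [Algebra K L] [IsScalarTower k K W]
  [IsScalarTower k W L] [IsScalarTower k K L] [IsScalarTower K W L] [FiniteDimensional K W]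
  [FiniteDimensional W L]

-- BEGIN sub
private theorem sub_rng {k A M : Type} [Field k] [Field A] [Field M] [Algebra k A] [Algebra k M]
    (σ : A →ₐ[k] M) [Algebra A M] (hs : ∀ x, algebraMap A M x = σ x) :
    finrank A M = finrank σ.fieldRange M ∧
      (FiniteDimensional A M → FiniteDimensional σ.fieldRange M) ∧
      (FiniteDimensional σ.fieldRange M → FiniteDimensional A M) := by
  let e : A ≃+* σ.fieldRange :=
    RingEquiv.ofBijective (σ.rangeRestrict : A →ₐ[k] σ.range).toRingHom
      ⟨fun x y h => σ.toRingHom.injective (congrArg Subtype.val h), σ.rangeRestrict_surjective⟩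
  have he : ∀ x, ((e x : σ.fieldRange) : M) = σ x := fun x => rfl
  have h1 : (algebraMap σ.fieldRange M).comp (e : A →+* σ.fieldRange) =
      (RingEquiv.refl M : M →+* M).comp (algebraMap A M) := by
    ext x
    simp only [RingHom.comp_apply]
    exact (he x).trans (hs x).symm
  have h2 : (algebraMap A M).comp (e.symm : σ.fieldRange →+* A) =
      (RingEquiv.refl M : M →+* M).comp (algebraMap σ.fieldRange M) := by
    ext x
    simp only [RingHom.comp_apply]
    have h3 := he (e.symm x)
    rw [RingEquiv.apply_symm_apply] at h3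
    exact (hs _).trans h3.symm
  exact ⟨Algebra.finrank_eq_of_equiv_equiv e (RingEquiv.refl M) h1,
    fun h => Module.Finite.of_equiv_equiv e (RingEquiv.refl M) h1,
    fun h => Module.Finite.of_equiv_equiv e.symm (RingEquiv.refl M) h2⟩

/-- the same for a subfield of a subfield -/
private theorem sub_tow {k M : Type} [Field k] [Field M] [Algebra k M]
    (M' : IntermediateField k M) (E : IntermediateField k M')
    (E' : IntermediateField k M) (hE : IntermediateField.lift E = E')
    [FiniteDimensional E' M] :
    FiniteDimensional E M' ∧ finrank E M' * finrank M' M = finrank E' M := by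
  subst hE
  let e : E ≃+* IntermediateField.lift E := (IntermediateField.liftAlgEquiv E).toRingEquiv
  have he : ∀ x, ((e x : IntermediateField.lift E) : M) = ((x : M') : M) := fun x => rfl
  have h1 : (algebraMap (IntermediateField.lift E) M).comp
      (e : E →+* IntermediateField.lift E) =
      (RingEquiv.refl M : M →+* M).comp (algebraMap E M) := by
    ext x
    rfl
  have h2 : (algebraMap E M).comp (e.symm : IntermediateField.lift E →+* E) =
      (RingEquiv.refl M : M →+* M).comp (algebraMap (IntermediateField.lift E) M) := by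
    ext x
    have h3 := he (e.symm x)
    rw [RingEquiv.apply_symm_apply] at h3
    exact h3.symm
  have hf : FiniteDimensional E M := Module.Finite.of_equiv_equiv e.symm (RingEquiv.refl M) h2
  have h4 : finrank E M = finrank (IntermediateField.lift E) M :=
    Algebra.finrank_eq_of_equiv_equiv e (RingEquiv.refl M) h1
  exact ⟨FiniteDimensional.left E M' M, by rw [Module.finrank_mul_finrank, h4]⟩

/-- restriction of the codomain of an embedding to an intermediate field -/
private def sub_cod {k A M : Type} [Field k] [Field A] [Field M] [Algebra k A] [Algebra k M]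
    (σ : A →ₐ[k] M) (M' : IntermediateField k M) (h : σ.fieldRange ≤ M') : A →ₐ[k] M' :=
  σ.codRestrict M'.toSubalgebra fun x => h ⟨x, rfl⟩

private theorem sub_cod_lift {k A M : Type} [Field k] [Field A] [Field M] [Algebra k A]
    [Algebra k M] (σ : A →ₐ[k] M) (M' : IntermediateField k M) (h : σ.fieldRange ≤ M') :
    IntermediateField.lift (sub_cod σ M' h).fieldRange = σ.fieldRange := by
  ext x
  constructor
  · rintro ⟨y, ⟨z, hz⟩, hy⟩
    refine ⟨z, ?_⟩
    rw [← hy]
    have := congrArg (fun t : M' => (t : M)) hz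
    exact this
  · rintro ⟨z, hz⟩
    exact ⟨⟨x, h ⟨z, hz⟩⟩, ⟨z, Subtype.ext hz⟩, rfl⟩

/-- Restriction of a correspondence. `M = M'` as a field, `s` and `t` with codomain restricted to `M'`
(`AlgHom.codRestrict` to `M'.toSubalgebra`, or `IntermediateField` lifts). With `S = Z.s.fieldRange`, `SW`
= the first field in `hM'`, `T = Z.t.fieldRange`: `[M : SW] = [M : S] [S : SW] = Z.a * finrank W L` and
`= [M : M'] [M' : SW]`; `[M : T] = [M : M'] [M' : T]`. -/
theorem sub (Z : Corr k L K) (M' : IntermediateField k Z.M)
    (hM' : M' = (Z.s.comp (IsScalarTower.toAlgHom k W L)).fieldRange ⊔ Z.t.fieldRange) :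
    ∃ Z' : Corr k W K, Z.b = Z'.b * finrank M' Z.M ∧
      Z.a * finrank W L = Z'.a * finrank M' Z.M := by
  have hs1 : (Z.s.comp (IsScalarTower.toAlgHom k W L)).fieldRange ≤ M' := hM' ▸ le_sup_left
  have ht1 : Z.t.fieldRange ≤ M' := hM' ▸ le_sup_right
  -- the field of the first curve
  letI a1 : Algebra L Z.M := Z.s.toRingHom.toAlgebra
  have ha1 : ∀ x, algebraMap L Z.M x = Z.s x := fun x => rfl
  letI a2 : Algebra W Z.M := (Z.s.comp (IsScalarTower.toAlgHom k W L)).toRingHom.toAlgebra
  have ha2 : ∀ x, algebraMap W Z.M x = Z.s.comp (IsScalarTower.toAlgHom k W L) x := fun x => rfl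
  haveI : IsScalarTower W L Z.M := IsScalarTower.of_algebraMap_eq fun x => rfl
  obtain ⟨r1, _, r3⟩ := sub_rng Z.s ha1
  obtain ⟨q1, q2, _⟩ := sub_rng (Z.s.comp (IsScalarTower.toAlgHom k W L)) ha2
  haveI : FiniteDimensional L Z.M := r3 Z.fs
  haveI : FiniteDimensional W Z.M := FiniteDimensional.trans W L Z.M
  haveI hfs : FiniteDimensional (Z.s.comp (IsScalarTower.toAlgHom k W L)).fieldRange Z.M :=
    q2 inferInstance
  have hZa : Z.a * finrank W L =
      finrank (Z.s.comp (IsScalarTower.toAlgHom k W L)).fieldRange Z.M := by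
    rw [← q1, ← Module.finrank_mul_finrank W L Z.M, mul_comm]
    congr 1
    exact r1.symm
  obtain ⟨f1, g1⟩ := sub_tow M' (sub_cod _ M' hs1).fieldRange _ (sub_cod_lift _ M' hs1)
  obtain ⟨f2, g2⟩ := sub_tow M' (sub_cod _ M' ht1).fieldRange _ (sub_cod_lift _ M' ht1)
  refine ⟨{ M := M', s := sub_cod _ M' hs1, t := sub_cod _ M' ht1, gen := ?_, fs := f1, ft := f2 },
    ?_, ?_⟩
  · apply IntermediateField.lift_injective
    rw [IntermediateField.lift_sup, sub_cod_lift, sub_cod_lift, ← hM', IntermediateField.lift_top]
  · exact g2.symm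
  · exact hZa.trans g1.symm
-- END sub

section

variable {M : Type} [Field M] [Algebra k M] [Algebra L M] [IsScalarTower k L M]
  [FiniteDimensional L M] [IsAlgClosed k] [CharZero k]

-- BEGIN cW
/-- All coefficients of `minpoly L z` are in `W`: a coefficient is constant (`const_of_alg`) or
transcendental, and then `fdeg k (coefficient) ≤ fdeg k z ≤ n` (`push`) and `low` applies. So the
polynomial lifts (`Polynomial.lifts_iff_coeff_lifts`, `Polynomial.lifts_and_natDegree_eq_and_monic`). `L` is
a function field by `IsFunField.of_finite`. -/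
theorem cW (hW : IsFunField k W) {gW n : ℕ} (hg : IsGenus k W gW) (hB : Big k W L gW n) (z : M)
    (hn : fdeg k z ≤ n) : ∃ Q : W[X], Q.Monic ∧ Q.map (algebraMap W L) = minpoly L z := by
  have hL : IsFunField k L := IsFunField.of_finite (K := W) hW
  have h1 : minpoly L z ∈ Polynomial.lifts (algebraMap W L) := by
    rw [Polynomial.lifts_iff_coeff_lifts]
    intro i
    by_cases ht : Transcendental k ((minpoly L z).coeff i)
    · obtain ⟨w, hw⟩ := low hW hg hB ht ((push hL z i ht).trans hn)
      exact ⟨w, hw⟩
    · obtain ⟨c, hc⟩ := const_of_alg ht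
      refine ⟨algebraMap k W c, ?_⟩
      rw [← IsScalarTower.algebraMap_apply k W L, ← hc]
  obtain ⟨Q, hQ1, _, hQ3⟩ := Polynomial.lifts_and_natDegree_eq_and_monic h1
    (minpoly.monic (Algebra.IsIntegral.isIntegral (R := L) z))
  exact ⟨Q, hQ3, hQ1⟩
-- END cW

end

variable [IsAlgClosed k] [CharZero k]

-- BEGIN dgeq
/-- `S = Z.s.fieldRange`, `SW` = the first field in `hM'`. `prim` with `E1 = S`, `E2 = SW`, `u = Z.t x`,
`w = Z.t x'`, `c`; `y = x + c x'`, `z = Z.t y`. `Z.t.fieldRange = k(u, w)` (`hx`,
`IntermediateField.adjoin_map`), so `S ⊔ k(z) = ⊤` (`Z.gen`), `SW ⊔ k(z) = M'`. Give `Z.M` the algebra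
structures over `L` (`Z.s`), `W` (composite) and over `K` (`Z.t`), `rng`. `fdeg k z = fdeg k y * Z.b`
(`fd_tower`), `fdeg k y ≤ fdeg k x + fdeg k x'` (`add_le`, `smul_le`), so `cW` gives `Q`; `cnt` gives
`finrank (adjoin W {z}) M = finrank W L`, and `adjoin W {z}`, restricted to `k`, is `M'`. -/
theorem dgeq (hK : IsFunField k K) {x x' : K} (hx : IntermediateField.adjoin k {x, x'} = ⊤)
    {gW : ℕ} (hg : IsGenus k W gW)
    (hB : Big k W L gW ((finrank K L - 1) * (fdeg k x + fdeg k x'))) (Z : Corr k L K)
    (hb : Z.b < finrank K L) (M' : IntermediateField k Z.M)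
    (hM' : M' = (Z.s.comp (IsScalarTower.toAlgHom k W L)).fieldRange ⊔ Z.t.fieldRange) :
    finrank M' Z.M = finrank W L := by
  classical
  have hWF : IsFunField k W := IsFunField.of_finite hK
  let sW : W →ₐ[k] Z.M := Z.s.comp (IsScalarTower.toAlgHom k W L)
  have hsW : sW = Z.s.comp (IsScalarTower.toAlgHom k W L) := rfl
  let algL : Algebra L Z.M := Z.s.toRingHom.toAlgebra
  let algW : Algebra W Z.M := sW.toRingHom.toAlgebra
  obtain ⟨hfL, -, htL⟩ := rng Z.s (fun _ => rfl)
  have htW : IsScalarTower W L Z.M := IsScalarTower.of_algebraMap_eq (fun _ => rfl)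
  have hfW : FiniteDimensional W Z.M := FiniteDimensional.trans W L Z.M
  have htkW : IsScalarTower k W Z.M :=
    IsScalarTower.of_algebraMap_eq (fun r => (sW.commutes r).symm)
  have hf2 : FiniteDimensional sW.fieldRange Z.M := by
    let algA : Algebra W sW.fieldRange := sW.rangeRestrict.toRingHom.toAlgebra
    have htA : IsScalarTower W sW.fieldRange Z.M := IsScalarTower.of_algebraMap_eq (fun _ => rfl)
    exact Module.Finite.of_restrictScalars_finite W sW.fieldRange Z.M
  obtain ⟨c, hc1, hc2⟩ := prim Z.s.fieldRange sW.fieldRange (Z.t x) (Z.t x')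
  set z : Z.M := Z.t x + algebraMap k Z.M c * Z.t x' with hz
  have hzy : z = Z.t (x + algebraMap k K c * x') := by
    rw [hz, map_add, map_mul, AlgHom.commutes]
  have ht : Z.t.fieldRange = IntermediateField.adjoin k {Z.t x, Z.t x'} := by
    rw [AlgHom.fieldRange_eq_map, ← hx, IntermediateField.adjoin_map, Set.image_pair]
  have hgen := Z.gen
  rw [ht, ← hc1] at hgen
  have hM2 : M' = sW.fieldRange ⊔ IntermediateField.adjoin k {z} := by
    rw [hM', ← hsW, ht, ← hc2]
  have hn : fdeg k z ≤ (finrank K L - 1) * (fdeg k x + fdeg k x') := by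
    let algK : Algebra K Z.M := Z.t.toRingHom.toAlgebra
    obtain ⟨-, hfK, htK⟩ := rng Z.t (fun _ => rfl)
    have h1 : fdeg k (algebraMap K Z.M (x + algebraMap k K c * x')) =
        fdeg k (x + algebraMap k K c * x') * finrank K Z.M := fd_tower _
    have h2 : algebraMap K Z.M (x + algebraMap k K c * x') = z := hzy.symm
    rw [h2, hfK] at h1
    have h3 : fdeg k (x + algebraMap k K c * x') ≤ fdeg k x + fdeg k x' :=
      (add_le hK _ _).trans (Nat.add_le_add_left (smul_le hK _ _) _)
    have h4 : finrank Z.t.fieldRange Z.M ≤ finrank K L - 1 := by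
      have h5 : finrank Z.t.fieldRange Z.M < finrank K L := hb
      omega
    rw [h1, Nat.mul_comm]
    exact Nat.mul_le_mul h4 h3
  obtain ⟨Q, hQ1, hQ2⟩ := cW hWF hg hB z hn
  have hzt : IntermediateField.adjoin L {z} = ⊤ := by
    have h1 : Z.s.fieldRange ⊔ IntermediateField.adjoin k {z} ≤
        (IntermediateField.adjoin L {z}).restrictScalars k := by
      refine sup_le ?_ ?_
      · rintro _ ⟨a, rfl⟩
        exact (IntermediateField.adjoin L {z}).algebraMap_mem a
      · rw [IntermediateField.adjoin_le_iff]
        intro y hy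
        exact IntermediateField.subset_adjoin L {z} hy
    rw [hgen] at h1
    rw [eq_top_iff]
    intro m _
    exact h1 (IntermediateField.mem_top (x := m))
  have h6 := cnt hzt hQ1 hQ2
  have h7 : M' = (IntermediateField.adjoin W {z}).restrictScalars k := by
    rw [hM2]
    refine le_antisymm (sup_le ?_ ?_) ?_
    · rintro _ ⟨a, rfl⟩
      exact (IntermediateField.adjoin W {z}).algebraMap_mem a
    · rw [IntermediateField.adjoin_le_iff]
      intro y hy
      exact IntermediateField.subset_adjoin W {z} hy
    · intro m hm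
      have hm' : m ∈ IntermediateField.adjoin W {z} := hm
      clear hm
      induction hm' using IntermediateField.adjoin_induction with
      | mem y hy =>
        have h8 : IntermediateField.adjoin k {z} ≤ sW.fieldRange ⊔ IntermediateField.adjoin k {z} :=
          le_sup_right
        exact h8 (IntermediateField.subset_adjoin k {z} hy)
      | algebraMap a =>
        have h8 : sW.fieldRange ≤ sW.fieldRange ⊔ IntermediateField.adjoin k {z} := le_sup_left
        exact h8 ⟨a, rfl⟩
      | add a b _ _ ha hb' => exact add_mem ha hb'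
      | inv a _ ha => exact inv_mem ha
      | mul a b _ _ ha hb' => exact mul_mem ha hb'
  rw [h7]
  exact h6
-- END dgeq

-- BEGIN bge
/-- For every `Z`: if `Z.b ≥ finrank K L = finrank W L * finrank K W` then `Z.a * Z.b ≥
finrank W L * finrank K W ≥ finrank W L * corrDeg k W K` (`graph` for `K ⊆ W`, `Z.a ≥ 1`). Otherwise
`sub` and `dgeq`: `Z.b = Z'.b * e`, `Z.a = Z'.a`, so `Z.a * Z.b = e * (Z'.a * Z'.b) ≥ e * corrDeg k W K`. The
set in the definition of `corrDeg k L K` is nonempty by `graph`. -/
theorem bge (hK : IsFunField k K) {x x' : K} (hx : IntermediateField.adjoin k {x, x'} = ⊤)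
    {gW : ℕ} (hg : IsGenus k W gW)
    (hB : Big k W L gW ((finrank K L - 1) * (fdeg k x + fdeg k x'))) :
    finrank W L * corrDeg k W K ≤ corrDeg k L K := by
  have hfin : FiniteDimensional K L := Module.Finite.trans W L
  obtain ⟨Z0, ha0, hb0⟩ := graph (k := k) (K := K) (L := L)
  refine le_csInf ⟨_, Z0, rfl⟩ ?_
  rintro n ⟨Z, rfl⟩
  have ha : 0 < Z.a := finrank_pos
  by_cases hb : Z.b < finrank K L
  · obtain ⟨Z', h1, h2⟩ := sub (W := W) Z _ rfl
    have h3 := dgeq hK hx hg hB Z hb _ rfl
    rw [h3] at h1 h2
    have hWL : 0 < finrank W L := finrank_pos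
    have h4 : Z.a = Z'.a := Nat.eq_of_mul_eq_mul_right hWL h2
    have h5 : corrDeg k W K ≤ Z'.a * Z'.b := Nat.sInf_le ⟨Z', rfl⟩
    calc finrank W L * corrDeg k W K ≤ finrank W L * (Z'.a * Z'.b) := Nat.mul_le_mul_left _ h5
      _ = Z.a * Z.b := by rw [h4, h1]; ring
  · push Not at hb
    obtain ⟨Z1, ha1, hb1⟩ := graph (k := k) (K := K) (L := W)
    have h5 : corrDeg k W K ≤ finrank K W := Nat.sInf_le ⟨Z1, by rw [ha1, hb1, one_mul]⟩
    have h6 : finrank K W * finrank W L = finrank K L := finrank_mul_finrank K W L
    calc finrank W L * corrDeg k W K ≤ finrank W L * finrank K W := Nat.mul_le_mul_left _ h5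
      _ = finrank K L := by rw [mul_comm, h6]
      _ ≤ Z.b := hb
      _ ≤ Z.a * Z.b := Nat.le_mul_of_pos_left _ ha
-- END bge

end

-- BEGIN compos
private theorem compos_deg {k W L M : Type} [Field k] [Field W] [Field L] [Field M] [Algebra k W]
    [Algebra k L] [Algebra k M] [Algebra W L] [Algebra W M] [IsScalarTower k W L]
    [IsScalarTower k W M] [FiniteDimensional W L] [FiniteDimensional W M] (p' : L →ₐ[W] M) (n : ℕ)
    (hn : finrank W M ≤ finrank W L * n) :
    FiniteDimensional (p'.restrictScalars k).fieldRange M ∧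
      finrank (p'.restrictScalars k).fieldRange M ≤ n := by
  let _ : Algebra L M := p'.toRingHom.toAlgebra
  have htow : IsScalarTower W L M := IsScalarTower.of_algebraMap_eq fun w => (p'.commutes w).symm
  have hfin : FiniteDimensional L M := FiniteDimensional.right W L M
  have hmul : finrank W L * finrank L M = finrank W M := Module.finrank_mul_finrank W L M
  have hpos : 0 < finrank W L := Module.finrank_pos
  have hle : finrank L M ≤ n := by
    rw [← hmul] at hn
    exact Nat.le_of_mul_le_mul_left hn hpos
  have hc : (algebraMap (p'.restrictScalars k).fieldRange M).comp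
      ((p'.restrictScalars k).equivFieldRange.toRingEquiv : L ≃+* _).toRingHom =
      (RingEquiv.refl M).toRingHom.comp (algebraMap L M) := by
    ext x
    rfl
  constructor
  · exact Module.Finite.of_equiv_equiv
      ((p'.restrictScalars k).equivFieldRange.toRingEquiv : L ≃+* _) (RingEquiv.refl M) hc
  · rw [← Algebra.finrank_eq_of_equiv_equiv
      ((p'.restrictScalars k).equivFieldRange.toRingEquiv : L ≃+* _) (RingEquiv.refl M) hc]
    exact hle

private theorem compos_top {k W L N M : Type} [Field k] [Field W] [Field L] [Field N] [Field M]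
    [Algebra k W] [Algebra k L] [Algebra k N] [Algebra k M] [Algebra W L] [Algebra W N]
    [Algebra W M] [IsScalarTower k W L] [IsScalarTower k W N] [IsScalarTower k W M]
    (p' : L →ₐ[W] M) (q' : N →ₐ[W] M) (h : p'.fieldRange ⊔ q'.fieldRange = ⊤) :
    (p'.restrictScalars k).fieldRange ⊔ (q'.restrictScalars k).fieldRange = ⊤ := by
  set S : IntermediateField k M :=
    (p'.restrictScalars k).fieldRange ⊔ (q'.restrictScalars k).fieldRange with hS
  have hp : ∀ x, p' x ∈ S := fun x => (le_sup_left : (p'.restrictScalars k).fieldRange ≤ S) ⟨x, rfl⟩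
  have hq : ∀ x, q' x ∈ S := fun x => (le_sup_right : (q'.restrictScalars k).fieldRange ≤ S) ⟨x, rfl⟩
  let S' : IntermediateField W M := S.toSubfield.toIntermediateField fun w => by
    have := hp (algebraMap W L w)
    rw [p'.commutes] at this
    exact this
  have h1 : p'.fieldRange ⊔ q'.fieldRange ≤ S' := by
    refine sup_le ?_ ?_
    · rintro _ ⟨x, rfl⟩
      exact hp x
    · rintro _ ⟨x, rfl⟩
      exact hq x
  rw [h] at h1
  rw [eq_top_iff]
  intro m _
  exact h1 (IntermediateField.mem_top : m ∈ (⊤ : IntermediateField W M))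

/-- Composite fields. `Ω = AlgebraicClosure N`, `q0 : N → Ω`, `p0 : L → Ω` an embedding over `W`
(`IsAlgClosed.lift`; `L/W` is algebraic). `M = p0(L) ⊔ q0(N)` in `IntermediateField k Ω`. Degrees:
`finrank_sup_le`-type facts for the fields `p0(L)`, `q0(N)` over the common subfield `p0(W) = q0(W)`; or
directly: a basis of `N` over `W` spans `M` over `p0(L)` (the span is a ring, finite over a field,
so a field), and the same for `L`. -/
theorem compos {k W L N : Type} [Field k] [Field W] [Field L] [Field N] [Algebra k W]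
    [Algebra k L] [Algebra k N] [Algebra W L] [Algebra W N] [IsScalarTower k W L]
    [IsScalarTower k W N] [FiniteDimensional W L] [FiniteDimensional W N] :
    ∃ (M : Type) (_ : Field M) (_ : Algebra k M) (p : L →ₐ[k] M) (q : N →ₐ[k] M),
      (∀ w : W, p (algebraMap W L w) = q (algebraMap W N w)) ∧
      p.fieldRange ⊔ q.fieldRange = ⊤ ∧ FiniteDimensional p.fieldRange M ∧
      FiniteDimensional q.fieldRange M ∧ finrank p.fieldRange M ≤ finrank W N ∧
      finrank q.fieldRange M ≤ finrank W L := by
  let p0 : L →ₐ[W] AlgebraicClosure N := IsAlgClosed.lift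
  let q0 : N →ₐ[W] AlgebraicClosure N := IsScalarTower.toAlgHom W N (AlgebraicClosure N)
  let A : IntermediateField W (AlgebraicClosure N) := p0.fieldRange
  let B : IntermediateField W (AlgebraicClosure N) := q0.fieldRange
  have eA : finrank W A = finrank W L := (p0.equivFieldRange.toLinearEquiv.finrank_eq).symm
  have eB : finrank W B = finrank W N := (q0.equivFieldRange.toLinearEquiv.finrank_eq).symm
  have fA : FiniteDimensional W A := Module.Finite.equiv p0.equivFieldRange.toLinearEquiv
  have fB : FiniteDimensional W B := Module.Finite.equiv q0.equivFieldRange.toLinearEquiv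
  let M : IntermediateField W (AlgebraicClosure N) := A ⊔ B
  have hd : finrank W M ≤ finrank W L * finrank W N := by
    rw [← eA, ← eB]
    exact IntermediateField.finrank_sup_le A B
  have fM : FiniteDimensional W M := IntermediateField.finiteDimensional_sup A B
  let _ : Algebra k M := ((algebraMap W M).comp (algebraMap k W)).toAlgebra
  have tw : IsScalarTower k W M := IsScalarTower.of_algebraMap_eq fun _ => rfl
  let p' : L →ₐ[W] M := (IntermediateField.inclusion (le_sup_left : A ≤ M)).comp
    p0.equivFieldRange.toAlgHom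
  let q' : N →ₐ[W] M := (IntermediateField.inclusion (le_sup_right : B ≤ M)).comp
    q0.equivFieldRange.toAlgHom
  have htop : p'.fieldRange ⊔ q'.fieldRange = ⊤ := by
    have h1 : (p'.fieldRange ⊔ q'.fieldRange).map M.val = (⊤ : IntermediateField W M).map M.val := by
      rw [IntermediateField.map_sup, ← AlgHom.fieldRange_eq_map, AlgHom.map_fieldRange,
        AlgHom.map_fieldRange, IntermediateField.fieldRange_val]
      rfl
    exact IntermediateField.map_injective _ h1
  have hp := compos_deg (k := k) p' (finrank W N) hd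
  have hq := compos_deg (k := k) q' (finrank W L) (by rw [mul_comm]; exact hd)
  refine ⟨M, inferInstance, inferInstance, p'.restrictScalars k, q'.restrictScalars k, ?_,
    compos_top p' q' htop, hp.1, hq.1, hp.2, hq.2⟩
  intro w
  show p' (algebraMap W L w) = q' (algebraMap W N w)
  rw [p'.commutes, q'.commutes]
-- END compos

section

variable {k K W L : Type} [Field k] [Field K] [Field W] [Field L] [Algebra k K] [Algebra k W]
  [Algebra k L] [Algebra K W] [Algebra W L] [Algebra K L] [IsScalarTower k K W]
  [IsScalarTower k W L] [IsScalarTower k K L] [IsScalarTower K W L] [FiniteDimensional K W]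
  [FiniteDimensional W L]

-- BEGIN ble
private theorem ble_rev {k L M : Type} [Field k] [Field L] [Field M] [Algebra k L] [Algebra k M]
    (s : L →ₐ[k] M) [Algebra L M] (hs : ∀ x, algebraMap L M x = s x) [FiniteDimensional L M] :
    FiniteDimensional s.fieldRange M ∧ finrank s.fieldRange M = finrank L M := by
  obtain ⟨e, he0⟩ : ∃ e : L ≃+* s.fieldRange, ∀ x, (e x : M) = s x := by
    refine ⟨RingEquiv.ofBijective
      ((s : L →+* M).codRestrict s.fieldRange (fun x => ⟨x, rfl⟩)) ⟨?_, ?_⟩, fun x => rfl⟩
    · intro x y hxy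
      exact s.injective (congrArg Subtype.val hxy)
    · rintro ⟨y, x, rfl⟩
      exact ⟨x, rfl⟩
  have he : RingHom.comp (algebraMap s.fieldRange M) (e : L →+* s.fieldRange) =
      RingHom.comp ((RingEquiv.refl M : M ≃+* M) : M →+* M) (algebraMap L M) := by
    ext x
    show (e x : M) = algebraMap L M x
    rw [he0, hs]
  exact ⟨Module.Finite.of_equiv_equiv e (RingEquiv.refl M) he,
    (Algebra.finrank_eq_of_equiv_equiv e (RingEquiv.refl M) he).symm⟩

/-- Let `Z'` attain the minimum (`Nat.sInf_mem`, `graph` for `K ⊆ W`). `N = Z'.M` with `Algebra W N` by `Z'.s`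
(`rng`), `compos`: `M, p, q`. `s = p`, `t = q.comp Z'.t`. `gen`: `q(N) = q(s'(W)) ⊔ q(t'(K))` and
`q(s'(W)) ≤ p(L)`. `a = finrank p.fieldRange M ≤ Z'.a`; `b = [M : q(N)] [q(N) : q(t'(K))] ≤
finrank W L * Z'.b`. -/
theorem ble : corrDeg k L K ≤ finrank W L * corrDeg k W K := by
  have hne : {n | ∃ Z : Corr k W K, Z.a * Z.b = n}.Nonempty := by
    obtain ⟨Z, -, -⟩ := graph (k := k) (K := K) (L := W)
    exact ⟨_, Z, rfl⟩
  obtain ⟨Z', hZ'⟩ : ∃ Z : Corr k W K, Z.a * Z.b = corrDeg k W K := Nat.sInf_mem hne
  letI : Algebra W Z'.M := Z'.s.toRingHom.toAlgebra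
  obtain ⟨hf1, hr1, ht1⟩ := rng Z'.s (fun _ => rfl)
  obtain ⟨M, fM, aM, p, q, hpq, hgen, hfp, hfq, hp, hq⟩ := compos (k := k) (W := W) (L := L)
    (N := Z'.M)
  letI : Algebra K Z'.M := Z'.t.toRingHom.toAlgebra
  obtain ⟨hf2, hr2, ht2⟩ := rng Z'.t (fun _ => rfl)
  letI : Algebra Z'.M M := q.toRingHom.toAlgebra
  obtain ⟨hf3, hr3, ht3⟩ := rng q (fun _ => rfl)
  letI : Algebra K M := (q.comp Z'.t).toRingHom.toAlgebra
  haveI : IsScalarTower K Z'.M M := IsScalarTower.of_algebraMap_eq fun _ => rfl
  haveI hf4 : FiniteDimensional K M := FiniteDimensional.trans K Z'.M M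
  obtain ⟨hf5, hr5⟩ := ble_rev (q.comp Z'.t) (fun _ => rfl)
  have hgen' : p.fieldRange ⊔ (q.comp Z'.t).fieldRange = ⊤ := by
    have h1 : q.fieldRange = (q.comp Z'.s).fieldRange ⊔ (q.comp Z'.t).fieldRange := by
      rw [AlgHom.fieldRange_eq_map, ← Z'.gen, IntermediateField.map_sup, AlgHom.map_fieldRange,
        AlgHom.map_fieldRange]
    have h2 : (q.comp Z'.s).fieldRange ≤ p.fieldRange := by
      rintro y ⟨w, rfl⟩
      exact ⟨algebraMap W L w, hpq w⟩
    rw [eq_top_iff, ← hgen, h1]
    exact sup_le le_sup_left (sup_le (h2.trans le_sup_left) le_sup_right)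
  let Z : Corr k L K := { M := M, s := p, t := q.comp Z'.t, gen := hgen', fs := hfp, ft := hf5 }
  have hZa : Z.a ≤ Z'.a := hp.trans (le_of_eq hr1)
  have hZb : Z.b ≤ Z'.b * finrank W L := by
    have h1 : Z.b = finrank K Z'.M * finrank Z'.M M :=
      hr5.trans (Module.finrank_mul_finrank K Z'.M M).symm
    have h2 : finrank Z'.M M ≤ finrank W L := (le_of_eq hr3).trans hq
    have h3 : finrank K Z'.M = Z'.b := hr2
    rw [h1, h3]
    exact Nat.mul_le_mul_left _ h2
  calc corrDeg k L K ≤ Z.a * Z.b := Nat.sInf_le ⟨Z, rfl⟩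
    _ ≤ Z'.a * (Z'.b * finrank W L) := Nat.mul_le_mul hZa hZb
    _ = finrank W L * corrDeg k W K := by rw [← mul_assoc, hZ', mul_comm]
-- END ble

end

end Pool.Agent.CorD
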