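import Pool.Agent.EllHiggs.Restr

/-!
# Correspondence degree of coverings of curves: definitions

Curves over an algebraically closed field `k` of characteristic zero are given by their function
fields (`IsFunField k F`), their points by the places of the function field (`Place k F`), finite
morphisms by finite extensions of function fields.
-/

set_option autoImplicit false

open Module

noncomputable section

namespace Pool.Agent.CorD

open Pool.Agent.EllHiggs

/-- The degree `[F : k(y)]` of the function `y` on the curve with function field `F`; it is `0` if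
`y` is constant. -/
def fdeg (k : Type) {F : Type} [Field k] [Field F] [Algebra k F] (y : F) : ℕ :=
  finrank (IntermediateField.adjoin k {y}) F

/-- The gonality: the least degree of a nonconstant function. -/
def gon (k F : Type) [Field k] [Field F] [Algebra k F] : ℕ :=
  sInf {n | ∃ y : F, Transcendental k y ∧ fdeg k y = n}

section div

variable {k F : Type} [Field k] [Field F] [Algebra k F]

/-- The degree of a divisor. -/
def dg (D : Place k F →₀ ℤ) : ℤ := D.sum fun _ n => n

/-- The space `L(D)` of all functions `f` with `f = 0` or `div f + D ≥ 0`. -/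
def Lsp (D : Place k F →₀ ℤ) : Submodule k F where
  carrier := {f | ∀ v : Place k F, v.Ge (-(D v)) f}
  add_mem' := fun hf hg v => (hf v).add (hg v)
  zero_mem' := fun _ => Place.Ge.zero
  smul_mem' := fun c f hf v => by
    rw [Algebra.smul_def]
    have h1 : v.Ge (0 + -(D v)) (algebraMap k F c * f) :=
      (v.ge_zero_iff.2 (Place.mem_O_const c)).mul (hf v)
    rwa [zero_add] at h1

theorem mem_Lsp (D : Place k F →₀ ℤ) (f : F) : f ∈ Lsp D ↔ ∀ v : Place k F, v.Ge (-(D v)) f :=
  Iff.rfl

end div

/-- `g` is the genus of the curve with function field `F`: the maximum of `deg D + 1 - l(D)` over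
all divisors `D` (Riemann). -/
def IsGenus (k F : Type) [Field k] [Field F] [Algebra k F] (g : ℕ) : Prop :=
  (∀ D : Place k F →₀ ℤ, dg D + 1 ≤ (finrank k (Lsp D) : ℤ) + g) ∧
    ∃ D : Place k F →₀ ℤ, dg D + 1 = (finrank k (Lsp D) : ℤ) + g

/-- A correspondence between the curves `X`, `Y` with function fields `L`, `K`: a curve `Z` with
function field `M` and a morphism to `X × Y` which is birational onto its image (`gen`), finite
over both curves. -/
structure Corr (k L K : Type) [Field k] [Field L] [Field K] [Algebra k L] [Algebra k K] where
  M : Type
  [fld : Field M]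
  [alg : Algebra k M]
  s : L →ₐ[k] M
  t : K →ₐ[k] M
  gen : s.fieldRange ⊔ t.fieldRange = ⊤
  fs : FiniteDimensional s.fieldRange M
  ft : FiniteDimensional t.fieldRange M

attribute [instance] Corr.fld Corr.alg Corr.fs Corr.ft

section corr

variable {k L K : Type} [Field k] [Field L] [Field K] [Algebra k L] [Algebra k K]

/-- the degree over the first curve -/
def Corr.a (Z : Corr k L K) : ℕ := finrank Z.s.fieldRange Z.M

/-- the degree over the second curve -/
def Corr.b (Z : Corr k L K) : ℕ := finrank Z.t.fieldRange Z.M

end corr

/-- The correspondence degree of the curves with function fields `L`, `K`. -/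
def corrDeg (k L K : Type) [Field k] [Field L] [Field K] [Algebra k L] [Algebra k K] : ℕ :=
  sInf {n | ∃ Z : Corr k L K, Z.a * Z.b = n}

/-- All curves `W'` between the curves with function fields `L` and `W`, except the latter curve
itself, have large genus: `g(W') > δ g(W) + (δ - 1) (⌊n δ / e⌋ - 1)`, where `gW = g(W)`,
`δ = [W' : W]` and `e = [L : W]`. -/
def Big (k W L : Type) [Field k] [Field W] [Field L] [Algebra k W] [Algebra k L] [Algebra W L]
    [IsScalarTower k W L] (gW n : ℕ) : Prop :=
  ∀ W' : IntermediateField W L, W' ≠ ⊥ → ∀ g : ℕ, IsGenus k W' g →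
    finrank W W' * gW + (finrank W W' - 1) * (n * finrank W W' / finrank W L - 1) < g

end Pool.Agent.CorD
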