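import Pool.Agent.CorD.Defs

/-!
# The degree of a function is the number of its poles
-/

set_option autoImplicit false

open Module Polynomial

noncomputable section

namespace Pool.Agent.CorD

open Pool.Agent.EllHiggs Pool.Agent.MP_b814b1_ag

section

variable {k F : Type} [Field k] [Field F] [Algebra k F]

-- BEGIN fin_adj
/-- `t` with `[F : k(t)]` finite as in `IsFunField`. `t` is algebraic over `k(y)`
(`PlaceRes.isAlgebraic_adjoin`, passing from `Algebra.adjoin k {y}` to `IntermediateField.adjoin`
with `IntermediateField.isAlgebraic_adjoin_iff`), so `k(y, t)` is finite over `k(y)`; `F` is finite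
over `k(t)`, hence over `k(y, t)`. (Compare the proof of `IsFunField.of_finite` in
`EllHiggs/Restr.lean`.) -/
theorem fin_adj (hF : IsFunField k F) {y : F} (hy : Transcendental k y) :
    FiniteDimensional (IntermediateField.adjoin k {y}) F := by
  have halg := PlaceRes.isAlgebraic_adjoin hF hy
  obtain ⟨t, ht, hfin⟩ := hF
  have h1 : IsAlgebraic (IntermediateField.adjoin k {y}) t :=
    (IntermediateField.isAlgebraic_adjoin_iff (s := {y}) (x := t)).2 (halg t)
  have h2 : FiniteDimensional (IntermediateField.adjoin k {y})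
      (IntermediateField.adjoin (IntermediateField.adjoin k {y}) {t}) :=
    IntermediateField.adjoin.finiteDimensional h1.isIntegral
  have hmem : ∀ r : IntermediateField.adjoin k {t},
      (r : F) ∈ IntermediateField.adjoin (IntermediateField.adjoin k {y}) {t} := by
    intro r
    have h3 : IntermediateField.adjoin k {t} ≤
        (IntermediateField.adjoin (IntermediateField.adjoin k {y}) {t}).restrictScalars k := by
      rw [IntermediateField.adjoin_le_iff]
      intro x hx
      exact IntermediateField.subset_adjoin (IntermediateField.adjoin k {y}) {t} hx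
    exact h3 r.2
  have h4 : Module.Finite (IntermediateField.adjoin (IntermediateField.adjoin k {y}) {t}) F := by
    obtain ⟨s, hs⟩ := hfin.fg_top
    refine ⟨⟨s, ?_⟩⟩
    rw [eq_top_iff]
    intro l _
    have hl : l ∈ Submodule.span (IntermediateField.adjoin k {t}) (s : Set F) := by
      rw [hs]; trivial
    induction hl using Submodule.span_induction with
    | mem x hx => exact Submodule.subset_span hx
    | zero => exact zero_mem _
    | add x y _ _ hx hy => exact add_mem (hx trivial) (hy trivial)
    | smul r x _ hx =>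
      have h5 : r • x = (⟨(r : F), hmem r⟩ :
          IntermediateField.adjoin (IntermediateField.adjoin k {y}) {t}) • x := rfl
      rw [h5]
      exact Submodule.smul_mem _ _ (hx trivial)
  exact Module.Finite.trans (IntermediateField.adjoin (IntermediateField.adjoin k {y}) {t}) F
-- END fin_adj

-- BEGIN fd_pos
/-- `fin_adj` and `finrank_pos`; if `y` is algebraic over `k` then `k(y)` is finite over `k` and `F` is
not finite over `k` (it contains a transcendental element), so the `finrank` is `0`. -/
theorem fd_pos (hF : IsFunField k F) (y : F) : 0 < fdeg k y ↔ Transcendental k y := by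
  constructor
  · intro h hy
    have h1 : FiniteDimensional (IntermediateField.adjoin k {y}) F :=
      Module.finite_of_finrank_pos h
    have h2 : FiniteDimensional k (IntermediateField.adjoin k {y}) :=
      IntermediateField.adjoin.finiteDimensional hy.isIntegral
    have h3 : FiniteDimensional k F := Module.Finite.trans (IntermediateField.adjoin k {y}) F
    obtain ⟨t, ht, -⟩ := hF
    exact ht (Algebra.IsAlgebraic.isAlgebraic t)
  · intro hy
    have := fin_adj hF hy
    exact Module.finrank_pos
-- END fd_pos

-- BEGIN fd_map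
/-- `σ` maps `k(y)` onto `k(σ y)` (`IntermediateField.adjoin_map`), so `F/k(y)` and `F/k(σ y)` are
isomorphic by the semilinear map `σ`; e.g. `LinearEquiv.finrank_eq` after restricting scalars
along the isomorphism, or `Algebra.finrank_eq_of_equiv_equiv`. -/
theorem fd_map (σ : F ≃ₐ[k] F) (y : F) : fdeg k (σ y) = fdeg k y := by
  have hmap : IntermediateField.adjoin k {σ y} =
      (IntermediateField.adjoin k {y}).map (σ : F →ₐ[k] F) := by
    rw [IntermediateField.adjoin_map, Set.image_singleton]
    rfl
  unfold fdeg
  rw [hmap]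
  symm
  refine Algebra.finrank_eq_of_equiv_equiv
    (IntermediateField.intermediateFieldMap σ (IntermediateField.adjoin k {y})).toRingEquiv
    σ.toRingEquiv ?_
  ext x
  rfl
-- END fd_map

end

section tower

variable {k L F : Type} [Field k] [Field L] [Field F] [Algebra k L] [Algebra k F] [Algebra L F]
  [IsScalarTower k L F]

-- BEGIN fd_tower
/-- With `E = k(c) ⊆ L`: `[F : E] = [F : L] [L : E]` (`Module.finrank_mul_finrank E L F`), and `E`
maps isomorphically onto `k(algebraMap L F c)` (`IntermediateField.adjoin_map` for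
`IsScalarTower.toAlgHom k L F`), which does not change the dimension of `F` (the two `E`-actions
on `F` have the same orbits; `Algebra.finrank_eq_of_equiv_equiv`). -/
theorem fd_tower (c : L) : fdeg k (algebraMap L F c) = fdeg k c * finrank L F := by
  have hE : IntermediateField.adjoin k {algebraMap L F c} =
      (IntermediateField.adjoin k {c}).map (IsScalarTower.toAlgHom k L F) := by
    rw [IntermediateField.adjoin_map, Set.image_singleton]
    rfl
  unfold fdeg
  rw [hE, Module.finrank_mul_finrank (IntermediateField.adjoin k {c}) L F]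
  symm
  refine Algebra.finrank_eq_of_equiv_equiv
    (((IntermediateField.adjoin k {c}).equivMap (IsScalarTower.toAlgHom k L F)).toRingEquiv)
    (RingEquiv.refl F) ?_
  ext x
  rfl
-- END fd_tower

end tower

section closed

variable {k F : Type} [Field k] [Field F] [Algebra k F] [IsAlgClosed k] [CharZero k]

-- BEGIN len_basis
private theorem len_basis_fd (y : F) [IsCurve k y] (n : ℕ)
    (h : letI := (ratHom k y).toRingHom.toAlgebra; finrank (RatFunc k) F = n) :
    fdeg k y = n := by
  letI := (ratHom k y).toRingHom.toAlgebra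
  let i : RatFunc k ≃+* IntermediateField.adjoin k {y} :=
    (AlgEquiv.ofInjectiveField (ratHom k y)).toRingEquiv.trans
      (IntermediateField.equivOfEq (RatBase.fieldRange k y)).toRingEquiv
  have hi : ∀ f, ((i f : IntermediateField.adjoin k {y}) : F) = ratHom k y f := fun f => rfl
  have := Algebra.finrank_eq_of_equiv_equiv i (RingEquiv.refl F) (by
    ext f
    exact hi f)
  rw [← h, this]
  rfl

/-- `R0_basis` (file `MP_b814b1_ag/Rings0`): there is a basis `b` of `F` over the field `RatFunc k`
(acting through `X ↦ y`) with `a ∈ R0 ↔ all coordinates are polynomials`; the number of elements is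
`[F : k(y)]` (`ratHom` maps `RatFunc k` isomorphically onto `k(y)`, `fieldRange_eq`). The subspace
`B = {a | y * a ∈ R0}` consists of the `a` with `X * coordinate` a polynomial; `a ↦` the values at `0` of
the polynomials `X * coordinate` is a surjection `B → k^n` with kernel `R0` (`len` is in
`MP_b814b1_ag/Defs2`: the dimension of the quotient). -/
theorem len_basis (y : F) [IsCurve k y]
    (B : Submodule k F) (hB : ∀ a, a ∈ B ↔ y * a ∈ R0 k y) :
    len (Subalgebra.toSubmodule (R0 k y)) B = fdeg k y := by
  letI := RatBase.alg k y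
  haveI : IsScalarTower k (RatFunc k) F := RatBase.isScalarTower k y
  obtain ⟨n, b, hn, hb⟩ := R0_basis k y
  have hfd : fdeg k y = n := by
    refine len_basis_fd y n ?_
    rw [Module.finrank_eq_card_basis b, Fintype.card_fin]
  rw [hfd]
  have hX : (RatFunc.X : RatFunc k) ≠ 0 := RatFunc.X_ne_zero
  have hinj : Function.Injective (algebraMap k[X] (RatFunc k)) :=
    RatFunc.algebraMap_injective k
  let ι : k[X] →ₗ[k] RatFunc k := (IsScalarTower.toAlgHom k k[X] (RatFunc k)).toLinearMap
  have hι : ∀ p, ι p = algebraMap k[X] (RatFunc k) p := fun p => rfl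
  have hιinj : Function.Injective ι := hinj
  let e := LinearEquiv.ofInjective ι hιinj
  have hya : ∀ a i, b.repr (y * a) i = RatFunc.X * b.repr a i := by
    intro a i
    have : y * a = (RatFunc.X : RatFunc k) • a := by
      rw [RatBase.smul_def, RatBase.ratHom_X]
    rw [this, map_smul]
    rfl
  have hBm : ∀ a, a ∈ B ↔ ∀ i, IsPoly (RatFunc.X * b.repr a i) := by
    intro a
    rw [hB, hb]
    exact forall_congr' fun i => by rw [hya]
  let g : Fin n → F →ₗ[k] RatFunc k := fun i =>
    (LinearMap.mulLeft k (RatFunc.X : RatFunc k)).comp ((b.coord i).restrictScalars k)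
  have hg : ∀ i a, g i a = RatFunc.X * b.repr a i := fun i a => rfl
  have hgr : ∀ (i : Fin n) (a : B), (g i).comp B.subtype a ∈ LinearMap.range ι := by
    intro i a
    obtain ⟨p, hp⟩ := (hBm a.1).1 a.2 i
    exact ⟨p, hp⟩
  let ψ : Fin n → B →ₗ[k] k := fun i =>
    (Polynomial.lcoeff k 0).comp (e.symm.toLinearMap.comp
      (LinearMap.codRestrict (LinearMap.range ι) ((g i).comp B.subtype) (hgr i)))
  have hψ : ∀ (i : Fin n) (a : B) (p : k[X]),
      algebraMap k[X] (RatFunc k) p = RatFunc.X * b.repr a.1 i → ψ i a = p.coeff 0 := by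
    intro i a p hp
    have h1 : e p = LinearMap.codRestrict (LinearMap.range ι) ((g i).comp B.subtype) (hgr i) a := by
      apply Subtype.ext
      exact hp
    show (e.symm (LinearMap.codRestrict (LinearMap.range ι) ((g i).comp B.subtype) (hgr i)
      a)).coeff 0 = p.coeff 0
    rw [← h1, LinearEquiv.symm_apply_apply]
  let φ : B →ₗ[k] (Fin n → k) := LinearMap.pi ψ
  have hφ : ∀ a i, φ a i = ψ i a := fun a i => rfl
  have hker : LinearMap.ker φ = (Subalgebra.toSubmodule (R0 k y)).submoduleOf B := by
    ext a
    rw [LinearMap.mem_ker]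
    have hR : a ∈ (Subalgebra.toSubmodule (R0 k y)).submoduleOf B ↔ (a : F) ∈ R0 k y := Iff.rfl
    rw [hR, hb]
    constructor
    · intro h i
      obtain ⟨p, hp⟩ := (hBm a.1).1 a.2 i
      have h0 : p.coeff 0 = 0 := by
        rw [← hψ i a p hp, ← hφ, h]
        rfl
      obtain ⟨q, hq⟩ := Polynomial.X_dvd_iff.2 h0
      refine ⟨q, ?_⟩
      rw [hq, map_mul, RatFunc.algebraMap_X] at hp
      exact mul_left_cancel₀ hX hp
    · intro h
      funext i
      obtain ⟨q, hq⟩ := h i
      rw [hφ, hψ i a (X * q) (by rw [map_mul, RatFunc.algebraMap_X, hq])]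
      simp
  have hsurj : Function.Surjective φ := by
    intro c
    let f : Fin n → RatFunc k := fun i => RatFunc.X⁻¹ * algebraMap k[X] (RatFunc k) (C (c i))
    have hf : ∀ i, RatFunc.X * f i = algebraMap k[X] (RatFunc k) (C (c i)) := fun i => by
      show RatFunc.X * (RatFunc.X⁻¹ * _) = _
      rw [← mul_assoc, mul_inv_cancel₀ hX, one_mul]
    let a : F := b.equivFun.symm f
    have ha : ∀ i, b.repr a i = f i := fun i => by
      have := congrFun (b.equivFun.apply_symm_apply f) i
      rwa [Basis.equivFun_apply] at this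
    have haB : a ∈ B := (hBm a).2 fun i => ⟨C (c i), by rw [ha, hf]⟩
    refine ⟨⟨a, haB⟩, ?_⟩
    funext i
    rw [hφ, hψ i ⟨a, haB⟩ (C (c i)) (by rw [ha, hf]), coeff_C_zero]
  show finrank k (B ⧸ (Subalgebra.toSubmodule (R0 k y)).submoduleOf B) = n
  rw [← hker, (φ.quotKerEquivOfSurjective hsurj).finrank_eq, finrank_fin_fun]
-- END len_basis

-- BEGIN zer_form
omit [IsAlgClosed k] [CharZero k] [Algebra k F] [Field F] in
private theorem zer_form_len {V W : Type} [AddCommGroup V] [Module k V] [AddCommGroup W]
    [Module k W] (e : V ≃ₗ[k] W) (A B : Submodule k V) (A' B' : Submodule k W)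
    (hA : ∀ v, v ∈ A ↔ e v ∈ A') (hB : ∀ v, v ∈ B ↔ e v ∈ B') : len A B = len A' B' := by
  have hBm : B.map (e : V →ₗ[k] W) = B' := by
    ext w
    constructor
    · rintro ⟨v, hv, rfl⟩
      exact (hB v).1 hv
    · intro hw
      refine ⟨e.symm w, (hB _).2 ?_, ?_⟩
      · rw [LinearEquiv.apply_symm_apply]
        exact hw
      · exact e.apply_symm_apply w
  let f : B ≃ₗ[k] B' := e.ofSubmodules B B' hBm
  have hf : ∀ v : B, ((f v : B') : W) = e v.1 := fun v => rfl
  have hAm : (A.submoduleOf B).map (f : B →ₗ[k] B') = A'.submoduleOf B' := by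
    ext w
    constructor
    · rintro ⟨v, hv, rfl⟩
      show ((f v : B') : W) ∈ A'
      rw [hf]
      exact (hA _).1 hv
    · intro hw
      refine ⟨f.symm w, ?_, f.apply_symm_apply w⟩
      show ((f.symm w : B) : V) ∈ A
      rw [hA, ← hf, LinearEquiv.apply_symm_apply]
      exact hw
  exact (Submodule.Quotient.equiv _ _ f hAm).finrank_eq

/-- The number of zeros. `IsCurve k y` by `fin_adj`. Let `h c = y⁻¹ • 1` if `y ∈ c` and `1` otherwise
(`1 × 1` matrices); `exists_isPair`, `isBundle_of_isPair`, `deg_of_isPair` (`EllHiggs/PlaceDeg`,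
namespace `PF`): a pair `E` with `E.L0 = {a | y * a ∈ R0}`, `E.L1` as for the trivial pair
(`isPair_triv`, `mem_R0_iff_pl`), and `E.deg = ∑ over c with y ∈ c of ordv c y`. `Pair.Y_chi` for `triv ≤ E` and
`Pair.deg_triv`: `E.deg = len (triv.L0) (E.L0) + len (triv.L1) (E.L1) = fdeg k y + 0` (`len_basis`,
transported from `F` to `Fin 1 → F`; `Y_len_self`). The sum over `pl k F` is the sum over
`Place k F` by the bijection `ProdForm.toPl` with `ordv_eq`, as in the proof of `sum_ord`. -/
theorem zer_form (hF : IsFunField k F) {y : F} (hy : Transcendental k y) :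
    ∑ᶠ v : Place k F, max 0 (v.ord y) = (fdeg k y : ℤ) := by
  classical
  have hcur : IsCurve k y := ⟨hy, fin_adj hF hy⟩
  have hy0 : y ≠ 0 := by
    rintro rfl
    exact hy (isAlgebraic_zero)
  let a : PF.pl k F → F := fun c => if y ∈ c.1 then y⁻¹ else 1
  have ha0 : ∀ c, a c ≠ 0 := by
    intro c
    simp only [a]
    split_ifs
    · exact inv_ne_zero hy0
    · exact one_ne_zero
  let g : PF.pl k F → Matrix (Fin 1) (Fin 1) F := fun c => a c • (1 : Matrix (Fin 1) (Fin 1) F)
  have hgd : ∀ c, (g c).det = a c := by
    intro c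
    simp only [g]
    rw [Matrix.det_smul, Matrix.det_one, Fintype.card_fin, pow_one, mul_one]
  have hgi : ∀ c, (g c)⁻¹ = (a c)⁻¹ • (1 : Matrix (Fin 1) (Fin 1) F) := by
    intro c
    apply Matrix.inv_eq_left_inv
    simp only [g]
    rw [Matrix.smul_mul, Matrix.mul_smul, smul_smul, inv_mul_cancel₀ (ha0 c), one_smul,
      Matrix.one_mul]
  have hord : ∀ c : PF.pl k F, PF.IsOrd c.1 (PF.ordv c.1) := fun c => PF.isOrd_ordv y c.2
  have hG : PF.IsFr g := by
    constructor
    · intro c
      rw [hgd c]
      exact ha0 c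
    · refine (PF.ordv_finite y hy0).subset fun c hc hn => hc ?_
      have ho := hord c
      have h1 : y ∈ c.1 := by rw [ho.mem _ hy0, hn]
      have h2 : y⁻¹ ∈ c.1 := by rw [ho.mem _ (inv_ne_zero hy0), ho.ordv_inv, hn]; norm_num
      have h3 : ∀ x : F, x ∈ c.1 → ∀ k l, (x • (1 : Matrix (Fin 1) (Fin 1) F)) k l ∈ c.1 := by
        intro x hx k l
        rw [Matrix.smul_apply, Matrix.one_apply]
        split_ifs
        · rw [smul_eq_mul, mul_one]; exact hx
        · rw [smul_zero]; exact zero_mem _
      have h4 : a c = y⁻¹ := by simp only [a]; rw [if_pos h1]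
      refine ⟨h3 _ (by rw [h4]; exact h2), ?_⟩
      rw [hgi c, h4, inv_inv]
      exact h3 _ h1
  obtain ⟨E, hE⟩ := PF.exists_isPair y g
  have hT := PF.A4.isPair_triv (kk := k) (n := 1) y
  have hEB := PF.isBundle_of_isPair hG hE
  have hTG : PF.IsFr (fun _ : PF.pl k F => (1 : Matrix (Fin 1) (Fin 1) F)) := by
    constructor
    · intro c
      rw [Matrix.det_one]
      exact one_ne_zero
    · refine Set.finite_empty.subset fun c hc => hc ?_
      have : ∀ k l, (1 : Matrix (Fin 1) (Fin 1) F) k l ∈ c.1 := by
        intro k l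
        rw [Matrix.one_apply]
        split_ifs
        · exact one_mem _
        · exact zero_mem _
      refine ⟨this, ?_⟩
      rw [inv_one]
      exact this
  have hTB := PF.isBundle_of_isPair hTG hT
  have hdeg := PF.deg_of_isPair hG hE
  have hT0 : ∀ v : Fin 1 → F, v ∈ (Pair.triv k y (Fin 1)).L0 ↔ v 0 ∈ R0 k y := by
    intro v
    rw [Pair.MultAux.mem_triv_L0]
    exact ⟨fun h => h 0, fun h i => by rw [Subsingleton.elim i 0]; exact h⟩
  have hE0 : ∀ v : Fin 1 → F, v ∈ E.L0 ↔ y * v 0 ∈ R0 k y := by
    intro v
    rw [hE.1, PF.mem_R0_iff_pl]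
    have key : ∀ c : PF.pl k F, y ∈ c.1 → ∀ i, (((g c)⁻¹).mulVec v) i = y * v 0 := by
      intro c hc i
      have h4 : a c = y⁻¹ := by simp only [a]; rw [if_pos hc]
      rw [hgi c, h4, inv_inv, Matrix.smul_mulVec, Matrix.one_mulVec, Subsingleton.elim i 0]
      rfl
    constructor
    · intro h c hc hyc
      have := h ⟨c, hc⟩ hyc 0
      rwa [key ⟨c, hc⟩ hyc 0] at this
    · intro h c hc i
      rw [key c hc i]
      exact h c.1 c.2 hc
  have hE1 : ∀ v : Fin 1 → F, v ∈ E.L1 ↔ v ∈ (Pair.triv k y (Fin 1)).L1 := by
    intro v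
    rw [hE.2, hT.2]
    refine forall_congr' fun c => forall_congr' fun hc => forall_congr' fun i => ?_
    have h4 : a c = 1 := by simp only [a]; rw [if_neg hc]
    rw [hgi c, h4, inv_one, inv_one, one_smul]
  have hle : Pair.triv k y (Fin 1) ≤ E := by
    constructor
    · intro v hv
      rw [hE0]
      rw [hT0] at hv
      exact mul_mem (Rings0.x_mem k y) hv
    · intro v hv
      rw [hE1]
      exact hv
  have hchi := Pair.Y_chi E (Pair.triv k y (Fin 1)) hEB hTB hle
  have hL1 : (Pair.triv k y (Fin 1)).L1.restrictScalars k = E.L1.restrictScalars k := by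
    ext v
    exact (hE1 v).symm
  have hlen1 : len ((Pair.triv k y (Fin 1)).L1.restrictScalars k) (E.L1.restrictScalars k) = 0 := by
    rw [hL1]
    exact Pair.Y_len_self _
  have hlen0 : len ((Pair.triv k y (Fin 1)).L0.restrictScalars k) (E.L0.restrictScalars k) =
      fdeg k y := by
    rw [← len_basis y ((Subalgebra.toSubmodule (R0 k y)).comap (LinearMap.mulLeft k y))
      (fun b => Iff.rfl)]
    refine zer_form_len (LinearEquiv.funUnique (Fin 1) k F) _ _ _ _ (fun v => ?_) (fun v => ?_)
    · exact hT0 v
    · exact hE0 v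
  rw [Pair.deg_triv, hlen0, hlen1] at hchi
  have hsum : ∑ᶠ c : PF.pl k F, PF.ordv c.1 (g c).det =
      -∑ᶠ c : PF.pl k F, max 0 (PF.ordv c.1 y) := by
    rw [← finsum_neg_distrib]
    refine finsum_congr fun c => ?_
    rw [hgd c]
    have ho := hord c
    simp only [a]
    split_ifs with hc
    · rw [ho.ordv_inv, max_eq_right ((ho.mem _ hy0).1 hc)]
    · have h1 : ¬ 0 ≤ PF.ordv c.1 y := fun h => hc ((ho.mem _ hy0).2 h)
      rw [ho.ordv_one, max_eq_left (by omega), neg_zero]
  have hbij : ∑ᶠ v : Place k F, max 0 (v.ord y) =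
      ∑ᶠ c : PF.pl k F, max 0 (PF.ordv c.1 y) := by
    refine finsum_eq_of_bijective (ProdForm.toPl hF)
      ⟨ProdForm.toPl_injective hF, ProdForm.toPl_surjective hF⟩ fun c => ?_
    change max 0 (c.ord y) = max 0 (PF.ordv c.O y)
    rw [ProdForm.ordv_eq hF c]
  rw [hbij]
  rw [hsum] at hdeg
  push_cast at hchi
  linarith
-- END zer_form

-- BEGIN pol_form
/-- The number of poles, for all `y`. If `y` is transcendental: `zer_form` and `sum_ord`
(`max 0 (-n) = max 0 n - n`; finite supports by `finite_ord`; `finsum_sub_distrib`). Otherwise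
`y = algebraMap k F s` (`k` is algebraically closed), all orders are `0` (`ord_const`) and
`fdeg k y = 0` (`fd_pos`). -/
theorem pol_form (hF : IsFunField k F) (y : F) :
    ∑ᶠ v : Place k F, max 0 (-(v.ord y)) = (fdeg k y : ℤ) := by
  have hfin := finite_ord hF y
  by_cases hy : Transcendental k y
  · have h1 := zer_form hF hy
    have h2 := sum_ord hF y
    have h3 : ∀ v : Place k F, max 0 (-(v.ord y)) = max 0 (v.ord y) - v.ord y := by
      intro v
      omega
    have hs1 : (Function.support fun v : Place k F => max 0 (v.ord y)).Finite := by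
      refine hfin.subset fun v hv hc => hv ?_
      change max 0 (v.ord y) = 0
      rw [hc]
      rfl
    rw [finsum_congr h3, finsum_sub_distrib hs1 hfin, h1, h2, sub_zero]
  · have h1 : fdeg k y = 0 := by
      have := mt (fd_pos hF y).1 hy
      omega
    have h2 : IsAlgebraic k y := not_not.1 hy
    have h3 : (minpoly k y).degree = 1 :=
      IsAlgClosed.degree_eq_one_of_irreducible k (minpoly.irreducible h2.isIntegral)
    obtain ⟨s, hs⟩ := minpoly.mem_range_of_degree_eq_one k y h3
    rw [h1, Nat.cast_zero]
    have h4 : ∀ v : Place k F, max 0 (-(v.ord y)) = 0 := by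
      intro v
      rw [← hs, v.ord_const]
      rfl
    rw [finsum_congr h4, finsum_zero]
-- END pol_form

-- BEGIN pol_div
/-- The divisor of poles as a finitely supported function (`finite_ord`); its degree by
`pol_form` (`finsum_eq_sum_of_support_subset`). -/
theorem pol_div (hF : IsFunField k F) (y : F) :
    ∃ P : Place k F →₀ ℤ, (∀ v, P v = max 0 (-(v.ord y))) ∧ dg P = (fdeg k y : ℤ) := by
  have hfin := finite_ord hF y
  have hs1 : (Function.support fun v : Place k F => max 0 (-(v.ord y))).Finite := by
    refine hfin.subset fun v hv hc => hv ?_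
    change max 0 (-(v.ord y)) = 0
    rw [hc]
    rfl
  refine ⟨Finsupp.ofSupportFinite _ hs1, fun v => rfl, ?_⟩
  rw [← pol_form hF y]
  unfold dg Finsupp.sum
  rw [finsum_eq_sum_of_support_subset _
    (s := (Finsupp.ofSupportFinite (fun v : Place k F => max 0 (-(v.ord y))) hs1).support)]
  · rfl
  · intro v hv
    exact Finsupp.mem_support_iff.2 hv
-- END pol_div

-- BEGIN coef_ge
/-- Induction on the multiset: the coefficients of `(X - C a) * P` are `P_(i-1) - a P_i`;
`Place.Ge.sub`, `Place.Ge.mul`, `Place.Ge.mono`, and `v.Ge (-(max 0 (-(v.ord a)))) a`. -/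
theorem coef_ge (v : Place k F) (s : Multiset F) (i : ℕ) :
    v.Ge (-((s.map fun a => max 0 (-(v.ord a))).sum)) ((s.map fun a => X - C a).prod.coeff i) := by
  induction s using Multiset.induction_on generalizing i with
  | empty =>
    simp only [Multiset.map_zero, Multiset.sum_zero, neg_zero, Multiset.prod_zero]
    rw [v.ge_zero_iff, coeff_one]
    split_ifs
    · exact one_mem _
    · exact zero_mem _
  | cons a s ih =>
    have h0 : v.Ge (-(max 0 (-(v.ord a)))) a := Or.inr (by omega)
    have h1 := h0.mul (ih i)
    have h2 : v.Ge (-(max 0 (-(v.ord a)) + (s.map fun a => max 0 (-(v.ord a))).sum))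
        (a * (s.map fun a => X - C a).prod.coeff i) := h1.mono (by omega)
    rw [Multiset.map_cons, Multiset.sum_cons, Multiset.map_cons, Multiset.prod_cons, sub_mul,
      coeff_sub, coeff_C_mul]
    cases i with
    | zero =>
      rw [coeff_X_mul_zero]
      exact Place.Ge.zero.sub h2
    | succ j => 
      rw [coeff_X_mul]
      exact ((ih j).mono (by omega)).sub h2
-- END coef_ge

-- BEGIN coef_le
private theorem coef_le_fin (hF : IsFunField k F) (y : F) :
    (Function.support fun v : Place k F => max 0 (-(v.ord y))).Finite := by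
  refine (finite_ord hF y).subset fun v hv h0 => hv ?_
  have h1 : v.ord y = 0 := h0
  show max 0 (-(v.ord y)) = 0
  rw [h1, neg_zero, max_self]

private theorem coef_le_sum (hF : IsFunField k F) (s : Multiset F) :
    (Function.support fun v : Place k F => (s.map fun a => max 0 (-(v.ord a))).sum).Finite ∧
      ∑ᶠ v : Place k F, (s.map fun a => max 0 (-(v.ord a))).sum =
        (((s.map fun a => fdeg k a).sum : ℕ) : ℤ) := by
  induction s using Multiset.induction_on with
  | empty =>
    constructor
    · simp
    · simp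
  | cons a s ih =>
    obtain ⟨h1, h2⟩ := ih
    have h3 := coef_le_fin hF a
    have h4 : (fun v : Place k F => ((a ::ₘ s).map fun a => max 0 (-(v.ord a))).sum) =
        fun v : Place k F => max 0 (-(v.ord a)) + (s.map fun a => max 0 (-(v.ord a))).sum := by
      funext v
      rw [Multiset.map_cons, Multiset.sum_cons]
    rw [h4]
    constructor
    · exact (h3.union h1).subset (Function.support_add _ _)
    · rw [finsum_add_distrib h3 h1, h2, pol_form hF a, Multiset.map_cons, Multiset.sum_cons,
        Nat.cast_add]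

/-- `pol_form` for the coefficient and for all elements of `s`; pointwise inequality `coef_ge`
(the coefficient is not `0`: transcendental); sums of finitely supported functions
(`finsum_le_finsum`-like, e.g. via one common finite set of places outside of which everything
is `0`); induction or `Multiset.sum` over `s`. -/
theorem coef_le (hF : IsFunField k F) (s : Multiset F) (i : ℕ)
    (hc : Transcendental k ((s.map fun a => X - C a).prod.coeff i)) :
    fdeg k ((s.map fun a => X - C a).prod.coeff i) ≤ (s.map fun a => fdeg k a).sum := by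
  have hne : (s.map fun a => X - C a).prod.coeff i ≠ 0 := by
    intro h0
    rw [h0] at hc
    exact hc (isAlgebraic_zero)
  obtain ⟨h1, h2⟩ := coef_le_sum hF s
  have h3 := pol_form hF ((s.map fun a => X - C a).prod.coeff i)
  have h4 : ((fdeg k ((s.map fun a => X - C a).prod.coeff i) : ℕ) : ℤ) ≤
      (((s.map fun a => fdeg k a).sum : ℕ) : ℤ) := by
    rw [← h3, ← h2, ← sub_nonneg, ← finsum_sub_distrib h1 (coef_le_fin hF _)]
    refine finsum_nonneg fun v => ?_
    have h5 := (coef_ge v s i).le_ord hne
    have h6 : 0 ≤ (s.map fun a => max 0 (-(v.ord a))).sum := by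
      refine Multiset.sum_nonneg fun x hx => ?_
      obtain ⟨a, _, rfl⟩ := Multiset.mem_map.1 hx
      exact le_max_left _ _
    exact sub_nonneg.2 (max_le h6 (by linarith))
  exact_mod_cast h4
-- END coef_le

-- BEGIN add_le
private theorem add_le_pol (v : Place k F) (u w : F) :
    max 0 (-(v.ord (u + w))) ≤ max 0 (-(v.ord u)) + max 0 (-(v.ord w)) := by
  rcases eq_or_ne u 0 with rfl | hu
  · rw [zero_add]
    omega
  rcases eq_or_ne w 0 with rfl | hw
  · rw [add_zero]
    omega
  rcases eq_or_ne (u + w) 0 with h0 | h0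
  · rw [h0, v.ord_zero]
    omega
  · have h1 := v.ord_add u w hu hw h0
    omega

private theorem add_le_fin (hF : IsFunField k F) (y : F) :
    (Function.support fun v : Place k F => max 0 (-(v.ord y))).Finite := by
  refine (finite_ord hF y).subset ?_
  intro v hv
  rw [Function.mem_support] at hv
  change v.ord y ≠ 0
  intro h2
  rw [h2, neg_zero] at hv
  exact hv (max_self 0)

/-- `max 0 (-(v.ord (u + w))) ≤ max 0 (-(v.ord u)) + max 0 (-(v.ord w))` for every place `v`;
`pol_form` three times. -/
theorem add_le (hF : IsFunField k F) (u w : F) : fdeg k (u + w) ≤ fdeg k u + fdeg k w := by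
  have h1 : (fdeg k (u + w) : ℤ) ≤ (fdeg k u : ℤ) + (fdeg k w : ℤ) := by
    rw [← pol_form hF, ← pol_form hF, ← pol_form hF,
      ← finsum_add_distrib (add_le_fin hF u) (add_le_fin hF w)]
    refine finsum_le_finsum' (add_le_fin hF (u + w)) ?_ ?_
    · exact ((add_le_fin hF u).union (add_le_fin hF w)).subset
        (Function.support_add _ _)
    · intro v
      exact add_le_pol v u w
  exact_mod_cast h1

/-- `v.ord (c w) = v.ord w`, or `k(c w) = k(w)`. -/
theorem smul_le (hF : IsFunField k F) (c : k) (w : F) :
    fdeg k (algebraMap k F c * w) ≤ fdeg k w := by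
  have h1 : (fdeg k (algebraMap k F c * w) : ℤ) ≤ (fdeg k w : ℤ) := by
    rw [← pol_form hF, ← pol_form hF]
    refine finsum_le_finsum' (add_le_fin hF _) (add_le_fin hF _) ?_
    intro v
    change max 0 (-(v.ord (algebraMap k F c * w))) ≤ max 0 (-(v.ord w))
    rcases eq_or_ne w 0 with rfl | hw
    · rw [mul_zero]
    · rcases eq_or_ne (algebraMap k F c) 0 with h0 | h0
      · rw [h0, zero_mul, v.ord_zero, neg_zero, max_self]
        exact le_max_left _ _
      · rw [v.ord_mul _ _ h0 hw, v.ord_const, zero_add]
  exact_mod_cast h1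
-- END add_le

end closed

end Pool.Agent.CorD
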