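import Pool.Agent.CorD.Cor

/-!
# The correspondence degree of coverings of large genus: conclusion
-/

set_option autoImplicit false

open Module

noncomputable section

namespace Pool.Agent.CorD

open Pool.Agent.EllHiggs Pool.Agent.MP_b814b1_ag

section

variable {k K W L : Type} [Field k] [Field K] [Field W] [Field L] [Algebra k K] [Algebra k W]
  [Algebra k L] [Algebra K W] [Algebra W L] [Algebra K L] [IsScalarTower k K W]
  [IsScalarTower k W L] [IsScalarTower k K L] [IsScalarTower K W L] [FiniteDimensional K W]
  [FiniteDimensional W L] [IsAlgClosed k] [CharZero k]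

/-- If `W = K` then every correspondence has degree at least `[L : K]` over the curve of `K`. -/
theorem b_ge (hK : IsFunField k K) {gW : ℕ} (hg : IsGenus k W gW)
    (hs : Function.Surjective (algebraMap K W))
    (hB : Big k W L gW ((finrank K L - 1) * gon k K)) (Z : Corr k L K) :
    finrank K L ≤ Z.b := by
  by_contra hcon
  push Not at hcon
  let algL : Algebra L Z.M := Z.s.toRingHom.toAlgebra
  obtain ⟨f1, f2, f3⟩ := rng Z.s (fun _ => rfl)
  let algK : Algebra K Z.M := Z.t.toRingHom.toAlgebra
  obtain ⟨g1, g2, g3⟩ := rng Z.t (fun _ => rfl)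
  obtain ⟨⟨x, hx, hxg⟩, hmin, hpos⟩ := gonx hK
  have hz : Transcendental k (algebraMap K Z.M x) :=
    (transcendental_algebraMap_iff (R := k) (S := K) (A := Z.M)
      (algebraMap K Z.M).injective (a := x)).2 hx
  have hfd : fdeg k (algebraMap K Z.M x) = fdeg k x * finrank K Z.M := fd_tower x
  have hW : IsFunField k W := hK.of_finite
  have hL : IsFunField k L := hW.of_finite
  obtain ⟨i, hi⟩ := push_ex (L := L) hz
  have h1 := push hL (algebraMap K Z.M x) i hi
  have hb : finrank K Z.M = Z.b := g2
  have h2 : fdeg k (algebraMap K Z.M x) ≤ (finrank K L - 1) * gon k K := by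
    rw [hfd, hxg, hb, mul_comm]
    exact Nat.mul_le_mul_right _ (by omega)
  obtain ⟨w, hw⟩ := low hW hg hB hi (h1.trans h2)
  obtain ⟨y, rfl⟩ := hs w
  rw [← IsScalarTower.algebraMap_apply] at hw
  have h3 : fdeg k (algebraMap K L y) = fdeg k y * finrank K L := fd_tower y
  have hy : Transcendental k y := by
    rw [← hw] at hi
    exact (transcendental_algebraMap_iff (R := k) (S := K) (A := L)
      (algebraMap K L).injective (a := y)).1 hi
  have h4 := hmin y hy
  rw [← hw, h3] at h1
  have h5 : gon k K * finrank K L ≤ (finrank K L - 1) * gon k K :=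
    (Nat.mul_le_mul_right _ h4).trans (h1.trans h2)
  have h6 : 0 < finrank K L := by
    have : FiniteDimensional K L := Module.Finite.trans W L
    exact finrank_pos
  obtain ⟨d, hd⟩ : ∃ d, finrank K L = d + 1 := ⟨finrank K L - 1, by omega⟩
  rw [hd, Nat.add_sub_cancel] at h5
  nlinarith

omit [IsAlgClosed k] [CharZero k] in
theorem corrDeg_le [FiniteDimensional K L] : corrDeg k L K ≤ finrank K L := by
  obtain ⟨Z, ha, hb⟩ := graph (k := k) (K := K) (L := L)
  refine Nat.sInf_le ⟨Z, ?_⟩
  rw [ha, hb, one_mul]

theorem eq_of_surj (hK : IsFunField k K) {gW : ℕ} (hg : IsGenus k W gW)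
    (hs : Function.Surjective (algebraMap K W))
    (hB : Big k W L gW ((finrank K L - 1) * gon k K)) : corrDeg k L K = finrank K L := by
  have : FiniteDimensional K L := Module.Finite.trans W L
  refine le_antisymm corrDeg_le ?_
  obtain ⟨Z, ha, hb⟩ := graph (k := k) (K := K) (L := L)
  refine le_csInf ⟨_, Z, rfl⟩ ?_
  rintro n ⟨Z', rfl⟩
  have h1 := b_ge hK hg hs hB Z'
  have h2 : 0 < Z'.a := finrank_pos
  calc finrank K L ≤ Z'.b := h1
    _ ≤ Z'.a * Z'.b := Nat.le_mul_of_pos_left _ h2

theorem mul_corrDeg (hK : IsFunField k K) {x x' : K}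
    (hx : IntermediateField.adjoin k {x, x'} = ⊤) {gW : ℕ} (hg : IsGenus k W gW)
    (hB : Big k W L gW ((finrank K L - 1) * (fdeg k x + fdeg k x'))) :
    corrDeg k L K = finrank W L * corrDeg k W K :=
  le_antisymm ble (bge hK hx hg hB)

end

section bounded

variable {k K L : Type} [Field k] [Field K] [Field L] [Algebra k K] [Algebra k L] [Algebra K L]
  [IsScalarTower k K L] [FiniteDimensional K L]

omit [FiniteDimensional K L] in
theorem tow (W : IntermediateField K L) : IsScalarTower k W L :=
  IsScalarTower.of_algebraMap_eq fun _ => rfl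

attribute [local instance] tow

/-- A function field is generated by two elements. -/
theorem two_gen [CharZero k] (hK : IsFunField k K) :
    ∃ x x' : K, IntermediateField.adjoin k {x, x'} = ⊤ := by
  obtain ⟨x, hx, hfin⟩ := hK
  have hz : CharZero (IntermediateField.adjoin k {x}) :=
    charZero_of_injective_algebraMap (algebraMap k (IntermediateField.adjoin k {x})).injective
  obtain ⟨x', hx'⟩ := Field.exists_primitive_element (IntermediateField.adjoin k {x}) K
  refine ⟨x, x', ?_⟩
  have h1 := IntermediateField.adjoin_adjoin_left k ({x} : Set K) {x'}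
  rw [hx', IntermediateField.restrictScalars_top] at h1
  rw [h1]
  rfl

variable [IsAlgClosed k] [CharZero k]

/-- the genera of the chain of intermediate curves -/
def bd (d n γ : ℕ) : ℕ → ℕ
  | 0 => γ
  | i + 1 => d * bd d n γ i + d * (n * d)

omit [IsAlgClosed k] [CharZero k] in
theorem chain (n γ : ℕ) (N : ℕ) : ∀ (i : ℕ) (W : IntermediateField K L)
    (g : ℕ), IsGenus k W g → g ≤ bd (finrank K L) n γ i → finrank W L ≤ N →
    ∃ (W2 : IntermediateField K L) (g2 : ℕ), IsGenus k W2 g2 ∧
      (∃ j ≤ i + N, g2 ≤ bd (finrank K L) n γ j) ∧ Big k W2 L g2 n := by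
  induction N with
  | zero =>
    intro i W g _ _ h0
    have : 0 < finrank W L := finrank_pos
    omega
  | succ N ih =>
    intro i W g hg hgi hN
    by_cases hB : Big k W L g n
    · exact ⟨W, g, hg, ⟨i, by omega, hgi⟩, hB⟩
    · unfold Big at hB
      push Not at hB
      obtain ⟨W', hW', g', hg', hle⟩ := hB
      have h1 : finrank W W' * finrank W' L = finrank W L := finrank_mul_finrank W W' L
      have h2 : finrank K W * finrank W L = finrank K L := finrank_mul_finrank K W L
      have h3 : finrank W W' ≠ 1 := by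
        intro h4
        exact hW' (IntermediateField.finrank_eq_one_iff.1 h4)
      have h4 : 0 < finrank W W' := finrank_pos
      have h5 : 0 < finrank W' L := finrank_pos
      have h6 : 0 < finrank K W := finrank_pos
      have h7 : 0 < finrank W L := finrank_pos
      have h8 : finrank W' L ≤ N := by nlinarith [show 2 ≤ finrank W W' by omega]
      have h9 : finrank W W' ≤ finrank K L := by nlinarith
      refine (ih (i + 1) (W'.restrictScalars K) g' hg' ?_ h8).imp fun W2 hW2 => ?_
      · refine hle.trans ?_
        show _ ≤ finrank K L * bd (finrank K L) n γ i + finrank K L * (n * finrank K L)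
        refine add_le_add (Nat.mul_le_mul h9 hgi) (Nat.mul_le_mul (by omega) ?_)
        calc n * finrank W W' / finrank W L - 1 ≤ n * finrank W W' / finrank W L :=
              Nat.sub_le _ _
          _ ≤ n * finrank W W' := Nat.div_le_self _ _
          _ ≤ n * finrank K L := Nat.mul_le_mul_left _ h9
      · obtain ⟨g2, a1, ⟨j, hj, hj'⟩, a3⟩ := hW2
        exact ⟨g2, a1, ⟨j, by omega, hj'⟩, a3⟩

end bounded

attribute [local instance] tow in
/-- Every covering of degree `d` of a fixed curve factors through a curve of bounded genus which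
determines the correspondence degree. -/
theorem bounded (k K : Type) [Field k] [IsAlgClosed k] [CharZero k] [Field K] [Algebra k K]
    (hK : IsFunField k K) (d : ℕ) :
    ∃ G : ℕ, ∀ (L : Type) [Field L] [Algebra k L] [Algebra K L] [IsScalarTower k K L]
      [FiniteDimensional K L], finrank K L = d → ∃ W : IntermediateField K L,
        (∃ g ≤ G, IsGenus k W g) ∧ corrDeg k L K = finrank W L * corrDeg k W K := by
  obtain ⟨x, x', hx⟩ := two_gen hK
  obtain ⟨γ, hγ, -⟩ := van hK
  set n := (d - 1) * (fdeg k x + fdeg k x') with hn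
  refine ⟨∑ j ∈ Finset.range (d + 1), bd d n γ j, ?_⟩
  intro L _ _ _ _ _ hd
  have hbot : IsFunField k (⊥ : IntermediateField K L) := hK.of_finite
  obtain ⟨g0, hg0, -⟩ := van hbot
  have hle : g0 ≤ γ := by
    have h1 := cs (k := k) (K := K) (W := (⊥ : IntermediateField K L)) hK (h := 0) ?_ hγ hg0
    · rw [IntermediateField.finrank_bot] at h1
      push_cast at h1
      have h2 : (g0 : ℤ) ≤ γ := by linarith
      exact_mod_cast h2
    · rw [IntermediateField.adjoin_zero]
      exact IntermediateField.finrank_eq_one_iff_eq_top.1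
        (by rw [IntermediateField.finrank_bot', IntermediateField.finrank_bot])
  obtain ⟨W2, g2, a1, ⟨j, hj, hj'⟩, a3⟩ := chain n γ d 0 (⊥ : IntermediateField K L) g0 hg0
    hle (by rw [IntermediateField.finrank_bot', hd])
  rw [hd] at hj'
  refine ⟨W2, ⟨g2, hj'.trans ?_, a1⟩, ?_⟩
  · exact Finset.single_le_sum (f := fun j => bd d n γ j) (fun _ _ => Nat.zero_le _)
      (Finset.mem_range.2 (by omega))
  · rw [hn, ← hd] at a3
    exact mul_corrDeg hK hx a1 a3

/-! ### the inequality `corr.deg ≤ gon * gon` -/

theorem fdeg_eq {k F : Type} [Field k] [Field F] [Algebra k F] (y : F) [IsCurve k y] :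
    let _ := RatBase.alg k y; finrank (RatFunc k) F = fdeg k y := by
  let _ := RatBase.alg k y
  let i : RatFunc k ≃+* IntermediateField.adjoin k {y} :=
    (AlgEquiv.ofInjectiveField (ratHom k y)).toRingEquiv.trans
      (IntermediateField.equivOfEq (RatBase.fieldRange k y)).toRingEquiv
  have hi : ∀ f, ((i f : IntermediateField.adjoin k {y}) : F) = ratHom k y f := fun f => rfl
  have h1 := Algebra.finrank_eq_of_equiv_equiv i (RingEquiv.refl F) (by
    ext f
    exact hi f)
  exact h1

theorem corrDeg_le_gon {k W K : Type} [Field k] [Field W] [Field K] [Algebra k W] [Algebra k K]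
    (hW : IsFunField k W) (hK : IsFunField k K) : corrDeg k W K ≤ gon k W * gon k K := by
  obtain ⟨⟨w, hw, hwg⟩, -, -⟩ := gonx hW
  obtain ⟨⟨x, hx, hxg⟩, -, -⟩ := gonx hK
  have c1 : IsCurve k w := ⟨hw, fin_adj hW hw⟩
  have c2 : IsCurve k x := ⟨hx, fin_adj hK hx⟩
  let _ := RatBase.alg k w
  let _ := RatBase.alg k x
  have t1 : IsScalarTower k (RatFunc k) W :=
    IsScalarTower.of_algebraMap_eq fun c => ((ratHom k w).commutes c).symm
  have t2 : IsScalarTower k (RatFunc k) K :=
    IsScalarTower.of_algebraMap_eq fun c => ((ratHom k x).commutes c).symm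
  have f1 : FiniteDimensional (RatFunc k) W := RatBase.finiteDimensional k w
  have f2 : FiniteDimensional (RatFunc k) K := RatBase.finiteDimensional k x
  obtain ⟨M, iM, aM, p, q, hpq, hgen, fp, fq, dp, dq⟩ :=
    compos (k := k) (W := RatFunc k) (L := W) (N := K)
  have e1 : finrank (RatFunc k) W = fdeg k w := fdeg_eq w
  have e2 : finrank (RatFunc k) K = fdeg k x := fdeg_eq x
  rw [e2, hxg] at dp
  rw [e1, hwg] at dq
  have h1 : corrDeg k W K ≤ finrank p.fieldRange M * finrank q.fieldRange M :=
    Nat.sInf_le ⟨⟨M, p, q, hgen, fp, fq⟩, rfl⟩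
  refine h1.trans ((Nat.mul_le_mul dp dq).trans ?_)
  rw [mul_comm]

theorem le_gon {k K L : Type} [Field k] [Field K] [Field L] [Algebra k K] [Algebra k L]
    [Algebra K L] [IsScalarTower k K L] [FiniteDimensional K L] (hK : IsFunField k K)
    (W : IntermediateField K L) :
    corrDeg k L K ≤ finrank W L * (gon k W * gon k K) := by
  have := tow (k := k) W
  exact (ble (k := k) (K := K) (W := W) (L := L)).trans
    (Nat.mul_le_mul_left _ (corrDeg_le_gon (hK.of_finite (M := W)) hK))

end Pool.Agent.CorD
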