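import Pool.Agent.CorD.Deg

/-!
# Riemann's theorem and the inequality of Castelnuovo and Severi
-/

set_option autoImplicit false

open Module Polynomial

noncomputable section

namespace Pool.Agent.CorD

open Pool.Agent.EllHiggs Pool.Agent.MP_b814b1_ag

section closed

variable {k F : Type} [Field k] [Field F] [Algebra k F] [IsAlgClosed k] [CharZero k]

-- BEGIN pr
private theorem pr_key (hF : IsFunField k F) (t : F) [IsCurve k t] (D : Place k F →₀ ℤ)
    (P : PF.pl k F → Place k F) (hP : ∀ c, ProdForm.toPl hF (P c) = c) :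
    ∃ E : Pair k t (Fin 1 → F), E.IsBundle ∧ E.deg = ∑ᶠ c : PF.pl k F, D (P c) ∧
      (∀ v : Fin 1 → F, v ∈ E.L0 ↔ ∀ c : PF.pl k F, t ∈ c.1 → (P c).Ge (-(D (P c))) (v 0)) ∧
      (∀ v : Fin 1 → F, v ∈ E.L1 ↔ ∀ c : PF.pl k F, t ∉ c.1 → (P c).Ge (-(D (P c))) (v 0)) := by
  have hPO : ∀ c : PF.pl k F, (P c).O = c.1 := fun c => congrArg Subtype.val (hP c)
  have hPi : Function.Injective P := by
    intro c c' h
    rw [← hP c, ← hP c', h]
  let a : PF.pl k F → F := fun c => (P c).unif ^ (-(D (P c)))
  have ha : ∀ c, a c ≠ 0 := fun c => zpow_ne_zero _ (P c).unif_ne_zero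
  have hao : ∀ c, (P c).ord (a c) = -(D (P c)) := by
    intro c
    simp only [a]
    rw [Place.ord_zpow, Place.ord_unif, mul_one]
  let h : PF.pl k F → Matrix (Fin 1) (Fin 1) F := fun c => a c • (1 : Matrix (Fin 1) (Fin 1) F)
  have hhd : ∀ c, (h c).det = a c := by
    intro c
    simp only [h]
    rw [Matrix.det_smul, Matrix.det_one, Fintype.card_fin, pow_one, mul_one]
  have hhi : ∀ c, (h c)⁻¹ = (a c)⁻¹ • (1 : Matrix (Fin 1) (Fin 1) F) := by
    intro c
    apply Matrix.inv_eq_left_inv
    simp only [h]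
    rw [Matrix.smul_mul, Matrix.mul_smul, smul_smul, inv_mul_cancel₀ (ha c), one_smul,
      Matrix.one_mul]
  have hG : PF.IsFr h := by
    constructor
    · intro c
      rw [hhd c]
      exact ha c
    · refine (D.support.finite_toSet.preimage hPi.injOn).subset fun c hc => ?_
      rw [Set.mem_preimage, Finset.mem_coe, Finsupp.mem_support_iff]
      intro h0
      apply hc
      have ha1 : a c = 1 := by
        simp only [a]
        rw [h0, neg_zero, zpow_zero]
      have h3 : ∀ k' l, (1 : Matrix (Fin 1) (Fin 1) F) k' l ∈ c.1 := by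
        intro k' l
        rw [Matrix.one_apply]
        split_ifs
        · exact one_mem _
        · exact zero_mem _
      refine ⟨?_, ?_⟩
      · simp only [h]
        rw [ha1, one_smul]
        exact h3
      · rw [hhi c, ha1, inv_one, one_smul]
        exact h3
  have key : ∀ (c : PF.pl k F) (v : Fin 1 → F),
      (∀ k', (((h c)⁻¹).mulVec v) k' ∈ c.1) ↔ (P c).Ge (-(D (P c))) (v 0) := by
    intro c v
    have h1 : ∀ k' : Fin 1, (((h c)⁻¹).mulVec v) k' = (P c).unif ^ (-(-(D (P c)))) * v 0 := by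
      intro k'
      rw [hhi c, Matrix.smul_mulVec, Matrix.one_mulVec, Pi.smul_apply, smul_eq_mul,
        Subsingleton.elim k' 0]
      simp only [a]
      rw [zpow_neg (P c).unif (-(D (P c)))]
    rw [Place.ge_iff_unif, hPO c]
    constructor
    · intro h2
      have h4 := h2 0
      rwa [h1 0] at h4
    · intro h2 k'
      rw [h1 k']
      exact h2
  obtain ⟨E, hE⟩ := PF.exists_isPair t h
  refine ⟨E, PF.isBundle_of_isPair hG hE, ?_, ?_, ?_⟩
  · rw [PF.deg_of_isPair hG hE, ← finsum_neg_distrib]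
    refine finsum_congr fun c => ?_
    have h1 : PF.ordv c.1 = (P c).ord := by
      rw [← hPO c]
      exact ProdForm.ordv_eq hF (P c)
    rw [h1, hhd c, hao c, neg_neg]
  · intro v
    rw [hE.1 v]
    exact forall_congr' fun c => imp_congr_right fun _ => key c v
  · intro v
    rw [hE.2 v]
    exact forall_congr' fun c => imp_congr_right fun _ => key c v

/-- The line bundle of a divisor. `h c = q ^ (-(D v)) • 1` (`1 × 1` matrix) where `v` is the place of
`c : pl k F` (`ProdForm.toPl` is bijective) and `q = v.unif`; `PF.exists_isPair`,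
`PF.isBundle_of_isPair`, `PF.deg_of_isPair`; `ordv c = v.ord` (`ProdForm.ordv_eq`), so
`E.deg = - ∑ -(D v) = dg D`; `v.Ge n f ↔ v.unif ^ (-n) * f ∈ v.O` (`Place.ge_iff_unif`). -/
theorem pr (hF : IsFunField k F) (t : F) [IsCurve k t] (D : Place k F →₀ ℤ) :
    ∃ E : Pair k t (Fin 1 → F), E.IsBundle ∧ E.deg = dg D ∧
      (∀ v : Fin 1 → F, v ∈ E.L0 ↔ ∀ c : Place k F, 0 ≤ c.ord t → c.Ge (-(D c)) (v 0)) ∧
      (∀ v : Fin 1 → F, v ∈ E.L1 ↔ ∀ c : Place k F, c.ord t < 0 → c.Ge (-(D c)) (v 0)) := by
  let P : PF.pl k F → Place k F := fun c => (ProdForm.toPl_surjective hF c).choose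
  have hP : ∀ c, ProdForm.toPl hF (P c) = c := fun c => (ProdForm.toPl_surjective hF c).choose_spec
  have hPO : ∀ c : PF.pl k F, (P c).O = c.1 := fun c => congrArg Subtype.val (hP c)
  have hPt : ∀ v : Place k F, P (ProdForm.toPl hF v) = v := fun v =>
    ProdForm.toPl_injective hF (hP _)
  have ht : ∀ c : PF.pl k F, t ∈ c.1 ↔ 0 ≤ (P c).ord t := by
    intro c
    rw [← hPO c]
    exact Place.mem_O (P c)
  obtain ⟨E, h1, h2, h3, h4⟩ := pr_key hF t D P hP
  refine ⟨E, h1, ?_, ?_, ?_⟩
  · have h5 : ∑ᶠ v : Place k F, D v = ∑ᶠ c : PF.pl k F, D (P c) :=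
      finsum_eq_of_bijective (ProdForm.toPl hF)
        ⟨ProdForm.toPl_injective hF, ProdForm.toPl_surjective hF⟩ fun v => by rw [hPt v]
    have h6 : ∑ᶠ v : Place k F, D v = ∑ v ∈ D.support, D v :=
      finsum_eq_sum_of_support_subset _ (by rw [Finsupp.fun_support_eq])
    rw [h2, ← h5, h6]
    rfl
  · intro v
    rw [h3 v]
    constructor
    · intro h c hc
      have h5 := h (ProdForm.toPl hF c) (by rw [ht, hPt c]; exact hc)
      rwa [hPt c] at h5
    · intro h c hc
      exact h (P c) ((ht c).1 hc)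
  · intro v
    rw [h4 v]
    constructor
    · intro h c hc
      have h5 := h (ProdForm.toPl hF c) (by rw [ht, hPt c, not_le]; exact hc)
      rwa [hPt c] at h5
    · intro h c hc
      refine h (P c) ?_
      rw [ht c, not_le] at hc
      exact hc
-- END pr

-- BEGIN rr
private theorem rr_H0 {t : F} [IsCurve k t] {D : Place k F →₀ ℤ} {E : Pair k t (Fin 1 → F)}
    (h0 : ∀ v : Fin 1 → F, v ∈ E.L0 ↔ ∀ c : Place k F, 0 ≤ c.ord t → c.Ge (-(D c)) (v 0))
    (h1 : ∀ v : Fin 1 → F, v ∈ E.L1 ↔ ∀ c : Place k F, c.ord t < 0 → c.Ge (-(D c)) (v 0)) :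
    E.H0.map (LinearEquiv.funUnique (Fin 1) k F).toLinearMap = Lsp D := by
  ext f
  rw [Submodule.mem_map, mem_Lsp]
  constructor
  · rintro ⟨v, hv, rfl⟩ c
    obtain ⟨hv0, hv1⟩ := hv
    have hv0' : v ∈ E.L0 := hv0
    have hv1' : v ∈ E.L1 := hv1
    have e1 : (LinearEquiv.funUnique (Fin 1) k F).toLinearMap v = v 0 := rfl
    rw [e1]
    rcases lt_or_ge (c.ord t) 0 with h2 | h2
    · exact (h1 v).1 hv1' c h2
    · exact (h0 v).1 hv0' c h2
  · intro hf
    refine ⟨fun _ => f, ⟨?_, ?_⟩, rfl⟩
    · change (fun _ => f) ∈ E.L0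
      exact (h0 _).2 fun c _ => hf c
    · change (fun _ => f) ∈ E.L1
      exact (h1 _).2 fun c _ => hf c

private theorem rr_S {t : F} {E E' : Pair k t (Fin 1 → F)}
    (h0 : ∀ v : Fin 1 → F, v ∈ E.L0 → v ∈ E'.L0)
    (h1 : ∀ v : Fin 1 → F, v ∈ E.L1 → v ∈ E'.L1) : E.S ≤ E'.S := by
  apply sup_le_sup
  · exact fun v hv => h0 v hv
  · exact fun v hv => h1 v hv

/-- Take `t` with `IsCurve k t` from `hF`, `E D` from `pr`, `i D = (E D).h1`, `g0 = genus k t`.
`Lsp D ≃ H0 (E D)` (`f ↦ fun _ => f`); `Pair.chi_eq`: `h0 - h1 = dg D + 1 - g0`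
(`finrank F (Fin 1 → F) = 1`); `finite_H0`, `finite_H1`. Monotone: `L0, L1` increase with `D`, so the
quotient by `L0 + L1` of the larger divisor is a quotient of the other one. Zero: the quotient
for `D = 0` is spanned by the classes of finitely many `f_j`; for `D ≥ 0` with
`-(D c) ≤ c.ord f_j` for all `j, c` (`finite_ord`) all `f_j` are in `L0 ∩ L1` of `E D`, which contain the
lattices of `E 0`, so the quotient is zero. -/
theorem rr (hF : IsFunField k F) : ∃ (g0 : ℕ) (i : (Place k F →₀ ℤ) → ℕ),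
    (∀ D, FiniteDimensional k (Lsp D) ∧ (finrank k (Lsp D) : ℤ) = dg D + 1 - g0 + i D) ∧
      (∀ D D', D ≤ D' → i D' ≤ i D) ∧ ∃ D, i D = 0 := by
  classical
  obtain ⟨t, ht, hfin⟩ := id hF
  have hcur : IsCurve k t := ⟨ht, hfin⟩
  choose E hB hdeg hL0 hL1 using pr hF t
  have hS : ∀ D D', D ≤ D' → (E D).S ≤ (E D').S := by
    intro D D' hD
    apply rr_S
    · intro v hv
      rw [hL0] at hv ⊢
      intro c hc
      exact (hv c hc).mono (by have := hD c; omega)
    · intro v hv
      rw [hL1] at hv ⊢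
      intro c hc
      exact (hv c hc).mono (by have := hD c; omega)
  refine ⟨genus k t, fun D => (E D).h1, ?_, ?_, ?_⟩
  · intro D
    have h2 := rr_H0 (hL0 D) (hL1 D)
    have h3 : FiniteDimensional k (E D).H0 := Pair.finite_H0 (E D) (hB D)
    have h4 : finrank k (Lsp D) = (E D).h0 := by
      rw [← h2]
      exact LinearEquiv.finrank_map_eq (LinearEquiv.funUnique (Fin 1) k F) (E D).H0
    refine ⟨?_, ?_⟩
    · rw [← h2]
      exact Module.Finite.map (E D).H0 (LinearEquiv.funUnique (Fin 1) k F).toLinearMap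
    · have h5 := Pair.chi_eq (E D)
      unfold Pair.chi at h5
      rw [hdeg, Module.finrank_fin_fun] at h5
      rw [h4]
      push_cast at h5
      linarith
  · intro D D' hD
    have h2 : FiniteDimensional k ((Fin 1 → F) ⧸ (E D).S) := Pair.finite_H1 (E D) (hB D)
    exact LinearMap.finrank_le_finrank_of_surjective (f := Submodule.factor (hS D D' hD))
      (Submodule.factor_surjective _)
  · have h2 : Module.Finite k ((Fin 1 → F) ⧸ (E 0).S) := Pair.finite_H1 (E 0) (hB 0)
    obtain ⟨s, hs⟩ := h2.fg_top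
    have hfs : (Function.support fun c : Place k F =>
        ∑ x ∈ s, |c.ord (Function.surjInv (Submodule.mkQ_surjective (E 0).S) x 0)|).Finite := by
      refine (s.finite_toSet.biUnion fun x _ => finite_ord hF
        (Function.surjInv (Submodule.mkQ_surjective (E 0).S) x 0)).subset ?_
      intro c hc
      rw [Function.mem_support] at hc
      obtain ⟨x, hx, hx'⟩ := Finset.exists_ne_zero_of_sum_ne_zero hc
      exact Set.mem_biUnion (Finset.mem_coe.2 hx) (abs_ne_zero.1 hx')
    have hD0 : (0 : Place k F →₀ ℤ) ≤ Finsupp.ofSupportFinite _ hfs := by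
      intro c
      exact Finset.sum_nonneg fun x _ => abs_nonneg _
    refine ⟨Finsupp.ofSupportFinite _ hfs, ?_⟩
    have hT : ∀ x ∈ s, Function.surjInv (Submodule.mkQ_surjective (E 0).S) x ∈
        (E (Finsupp.ofSupportFinite _ hfs)).S := by
      intro x hx
      apply Submodule.mem_sup_left
      change _ ∈ (E (Finsupp.ofSupportFinite _ hfs)).L0
      rw [hL0]
      intro c _
      apply Place.Ge.of_le
      have h3 : |c.ord (Function.surjInv (Submodule.mkQ_surjective (E 0).S) x 0)| ≤
          (Finsupp.ofSupportFinite _ hfs) c :=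
        Finset.single_le_sum
          (f := fun x => |c.ord (Function.surjInv (Submodule.mkQ_surjective (E 0).S) x 0)|)
          (fun x _ => abs_nonneg _) hx
      have h4 := neg_abs_le (c.ord (Function.surjInv (Submodule.mkQ_surjective (E 0).S) x 0))
      linarith
    have hmap : (E (Finsupp.ofSupportFinite _ hfs)).S.map (E 0).S.mkQ = ⊤ := by
      rw [eq_top_iff, ← hs, Submodule.span_le]
      intro x hx
      exact ⟨_, hT x hx, Function.surjInv_eq (Submodule.mkQ_surjective (E 0).S) x⟩
    have htop : (E (Finsupp.ofSupportFinite _ hfs)).S = ⊤ := by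
      rw [eq_top_iff]
      intro w _
      have h3 : (E 0).S.mkQ w ∈ (E (Finsupp.ofSupportFinite _ hfs)).S.map (E 0).S.mkQ := by
        rw [hmap]
        trivial
      obtain ⟨u, hu, hu'⟩ := h3
      have h4 : w - u ∈ (E 0).S := by
        rw [Submodule.mkQ_apply, Submodule.mkQ_apply, eq_comm, Submodule.Quotient.eq] at hu'
        exact hu'
      have h5 := Submodule.add_mem _ (hS _ _ hD0 h4) hu
      rwa [sub_add_cancel] at h5
    have hsub : Subsingleton ((Fin 1 → F) ⧸ (E (Finsupp.ofSupportFinite _ hfs)).S) :=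
      Submodule.Quotient.subsingleton_iff.2 htop
    exact Module.finrank_zero_of_subsingleton
-- END rr

-- BEGIN lin
/-- `P` exists by `finite_ord`, `dg P = 0` by `sum_ord`; multiplication by `f` is an isomorphism
`Lsp (D + P) → Lsp D` (`v.ord (f * a) = v.ord f + v.ord a`). -/
theorem lin (hF : IsFunField k F) {f : F} (hf : f ≠ 0) :
    ∃ P : Place k F →₀ ℤ, (∀ v, P v = v.ord f) ∧ dg P = 0 ∧
      ∀ D, finrank k (Lsp (D + P)) = finrank k (Lsp D) := by
  refine ⟨Finsupp.ofSupportFinite (fun v : Place k F => v.ord f) (finite_ord hF f), fun v => rfl,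
    ?_, ?_⟩
  · have h1 := sum_ord hF f
    rw [finsum_eq_sum_of_support_subset (s := (Finsupp.ofSupportFinite
      (fun v : Place k F => v.ord f) (finite_ord hF f)).support) _ (by
        intro v hv
        rw [Finset.mem_coe, Finsupp.mem_support_iff]
        exact hv)] at h1
    exact h1
  · intro D
    have hinj : Function.Injective (LinearMap.mulLeft k f) := by
      intro a b hab
      exact mul_left_cancel₀ hf hab
    rw [(Submodule.equivMapOfInjective (LinearMap.mulLeft k f) hinj
      (Lsp (D + Finsupp.ofSupportFinite (fun v : Place k F => v.ord f)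
        (finite_ord hF f)))).finrank_eq]
    have hkey : ∀ a : F, a ∈ Lsp (D + Finsupp.ofSupportFinite (fun v : Place k F => v.ord f)
        (finite_ord hF f)) ↔ f * a ∈ Lsp D := by
      intro a
      rw [mem_Lsp, mem_Lsp]
      refine forall_congr' fun v => ?_
      rw [Finsupp.add_apply]
      show v.Ge (-(D v + v.ord f)) a ↔ _
      rcases eq_or_ne a 0 with rfl | ha
      · rw [mul_zero]
        exact ⟨fun _ => Place.Ge.zero, fun _ => Place.Ge.zero⟩
      · have e := v.ord_mul f a hf ha
        constructor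
        · intro h
          have h2 := h.le_ord ha
          refine Place.Ge.of_le ?_
          rw [e]
          omega
        · intro h
          have h2 := h.le_ord (mul_ne_zero hf ha)
          rw [e] at h2
          refine Place.Ge.of_le ?_
          omega
    have hmap : Submodule.map (LinearMap.mulLeft k f) (Lsp (D + Finsupp.ofSupportFinite
        (fun v : Place k F => v.ord f) (finite_ord hF f))) = Lsp D := by
      ext b
      rw [Submodule.mem_map]
      constructor
      · rintro ⟨a, ha, rfl⟩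
        exact (hkey a).1 ha
      · intro hb
        refine ⟨f⁻¹ * b, (hkey _).2 ?_, ?_⟩
        · rw [mul_inv_cancel_left₀ hf]
          exact hb
        · rw [LinearMap.mulLeft_apply, mul_inv_cancel_left₀ hf]
    rw [hmap]
-- END lin

-- BEGIN van
/-- `g0, i` from `rr`. `IsGenus`: `i D ≥ 0` and `i D = 0` for one `D`. Let `D0` with `i D0 = 0`, `P` the divisor
of poles of `x` (`pol_div`), `dg P = fdeg k x ≥ 1` (`fd_pos`). For `m0` large
`dg (m0 P - D0) + 1 - g0 > 0`, so there is `f ≠ 0` in `Lsp (m0 P - D0)`: `D0 ≤ m0 P + div f`, so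
`i (m0 P + div f) = 0` and by `lin` (the value of `i` is determined by `finrank` and `dg`)
`i (m0 P) = 0`, and `i D = 0` for `D ≥ m0 P`. -/
theorem van (hF : IsFunField k F) : ∃ g0 : ℕ, IsGenus k F g0 ∧
    (∀ D : Place k F →₀ ℤ, FiniteDimensional k (Lsp D)) ∧
    ∀ x : F, Transcendental k x → ∃ m0 : ℕ, ∀ D : Place k F →₀ ℤ,
      (∀ v, (m0 : ℤ) * max 0 (-(v.ord x)) ≤ D v) →
        (finrank k (Lsp D) : ℤ) = dg D + 1 - g0 := by
  classical
  obtain ⟨g0, i, h1, h2, D0, hD0⟩ := rr hF
  have hadd : ∀ A B : Place k F →₀ ℤ, dg (A + B) = dg A + dg B := by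
    intro A B
    unfold dg
    exact Finsupp.sum_add_index' (fun _ => rfl) (fun _ _ _ => rfl)
  have hneg : ∀ A : Place k F →₀ ℤ, dg (-A) = -dg A := by
    intro A
    have h3 := hadd A (-A)
    rw [add_neg_cancel] at h3
    have h4 : dg (0 : Place k F →₀ ℤ) = 0 := by
      unfold dg
      exact Finsupp.sum_zero_index
    rw [h4] at h3
    linarith
  have hsmul : ∀ (n : ℕ) (A : Place k F →₀ ℤ), dg (n • A) = n * dg A := by
    intro n A
    induction n with
    | zero =>
      rw [zero_smul]
      unfold dg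
      rw [Finsupp.sum_zero_index]
      simp
    | succ n ih =>
      rw [succ_nsmul, hadd, ih]
      push_cast
      ring
  refine ⟨g0, ⟨?_, D0, ?_⟩, fun D => (h1 D).1, ?_⟩
  · intro D
    have h3 := (h1 D).2
    omega
  · have h3 := (h1 D0).2
    rw [hD0] at h3
    push_cast at h3
    omega
  · intro x hx
    obtain ⟨P, hP, hdP⟩ := pol_div hF x
    have hpos : 0 < fdeg k x := (fd_pos hF x).2 hx
    refine ⟨(dg D0 + g0).toNat, ?_⟩
    have h3 := (h1 ((dg D0 + g0).toNat • P + -D0)).2
    rw [hadd, hneg, hsmul, hdP] at h3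
    have h4 : (dg D0 + g0 : ℤ) ≤ ((dg D0 + g0).toNat : ℤ) * (fdeg k x : ℤ) := by
      have h5 := Int.self_le_toNat (dg D0 + g0)
      have h6 : ((dg D0 + g0).toNat : ℤ) * 1 ≤ ((dg D0 + g0).toNat : ℤ) * (fdeg k x : ℤ) :=
        mul_le_mul_of_nonneg_left (by exact_mod_cast hpos) (by positivity)
      linarith
    have h5 : 0 < finrank k (Lsp ((dg D0 + g0).toNat • P + -D0)) := by
      have h6 : (0 : ℤ) < finrank k (Lsp ((dg D0 + g0).toNat • P + -D0)) := by
        rw [h3]
        have h7 : (0 : ℤ) ≤ i ((dg D0 + g0).toNat • P + -D0) := Int.natCast_nonneg _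
        linarith
      exact_mod_cast h6
    have hfd : FiniteDimensional k (Lsp ((dg D0 + g0).toNat • P + -D0)) := (h1 _).1
    obtain ⟨⟨f, hf⟩, hf0⟩ := Module.finrank_pos_iff_exists_ne_zero.1 h5
    have hf0' : f ≠ 0 := by
      intro h6
      apply hf0
      exact Subtype.ext h6
    obtain ⟨Pf, hPf, hdPf, hlin⟩ := lin hF hf0'
    have h6 : D0 ≤ (dg D0 + g0).toNat • P + Pf := by
      intro v
      have h7 := ((mem_Lsp _ f).1 hf v).le_ord hf0'
      rw [Finsupp.add_apply, Finsupp.neg_apply] at h7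
      rw [Finsupp.add_apply, hPf]
      linarith
    have h7 : i ((dg D0 + g0).toNat • P + Pf) = 0 := by
      have h8 := h2 _ _ h6
      omega
    have h8 : i ((dg D0 + g0).toNat • P) = 0 := by
      have h9 := (h1 ((dg D0 + g0).toNat • P + Pf)).2
      have h10 := (h1 ((dg D0 + g0).toNat • P)).2
      rw [hlin, hadd, hdPf, h7] at h9
      rw [h9] at h10
      push_cast at h10
      omega
    intro D hD
    have h9 : (dg D0 + g0).toNat • P ≤ D := by
      intro v
      have h10 := hD v
      rw [Finsupp.smul_apply, hP, nsmul_eq_mul]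
      exact h10
    have h10 : i D = 0 := by
      have h11 := h2 _ _ h9
      omega
    have h11 := (h1 D).2
    rw [h10] at h11
    push_cast at h11
    linarith
-- END van

end closed

-- BEGIN gen_uniq
theorem gen_uniq {k F : Type} [Field k] [Field F] [Algebra k F] {g g' : ℕ}
    (h : IsGenus k F g) (h' : IsGenus k F g') : g = g' := by
  obtain ⟨h1, D, hD⟩ := h
  obtain ⟨h1', D', hD'⟩ := h'
  have h2 := h1 D'
  have h3 := h1' D
  omega
-- END gen_uniq

section tower

variable {k K W : Type} [Field k] [Field K] [Field W] [Algebra k K] [Algebra k W] [Algebra K W]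
  [IsScalarTower k K W] [FiniteDimensional K W]

-- BEGIN pull
theorem pull {x : K} {h : W} (hh : IntermediateField.adjoin K {h} = ⊤) (m : ℕ)
    (DK : Place k K →₀ ℤ) (hDK : ∀ v, DK v = m * max 0 (-(v.ord x))) (DW : Place k W →₀ ℤ)
    (hDW : ∀ w, DW w = m * max 0 (-(w.ord (algebraMap K W x))) +
      ((finrank K W : ℤ) - 1) * max 0 (-(w.ord h)))
    (hfin : FiniteDimensional k (Lsp DW)) :
    finrank K W * finrank k (Lsp DK) ≤ finrank k (Lsp DW) := by
  have hδ : 0 < finrank K W := finrank_pos
  have hmem : ∀ f : Fin (finrank K W) → Lsp DK,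
      ∑ j, algebraMap K W (f j : K) * h ^ (j : ℕ) ∈ Lsp DW := by
    intro f w
    refine Place.Ge.sum fun j _ => ?_
    obtain ⟨v, e, he, hv⟩ := exists_over (K := K) w
    have h1 : w.Ge (-(m * max 0 (-(w.ord (algebraMap K W x))))) (algebraMap K W (f j : K)) := by
      rcases (f j).2 v with h0 | h0
      · left
        rw [h0, map_zero]
      · right
        rw [hv, hv]
        rw [hDK] at h0
        have h3 : max 0 (-(e * v.ord x)) = e * max 0 (-(v.ord x)) := by
          rw [mul_max_of_nonneg _ _ he.le, mul_zero, mul_neg]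
        rw [h3]
        nlinarith
    have h2 : w.Ge (-(((finrank K W : ℤ) - 1) * max 0 (-(w.ord h)))) (h ^ (j : ℕ)) := by
      right
      rw [Place.ord_pow]
      have hj : ((j : ℕ) : ℤ) ≤ (finrank K W : ℤ) - 1 := by
        have := j.2
        omega
      have hj0 : (0 : ℤ) ≤ ((j : ℕ) : ℤ) := by positivity
      rcases le_total 0 (w.ord h) with ho | ho
      · rw [max_eq_left (by omega)]
        simp only [mul_zero, neg_zero]
        exact mul_nonneg hj0 ho
      · rw [max_eq_right (by omega)]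
        nlinarith
    have h3 := h1.mul h2
    rw [hDW, neg_add]
    exact h3
  let Φ : (Fin (finrank K W) → Lsp DK) →ₗ[k] Lsp DW :=
    { toFun := fun f => ⟨∑ j, algebraMap K W (f j : K) * h ^ (j : ℕ), hmem f⟩
      map_add' := by
        intro f g
        apply Subtype.ext
        simp only [Pi.add_apply, Submodule.coe_add, map_add, add_mul, Finset.sum_add_distrib]
      map_smul' := by
        intro c f
        apply Subtype.ext
        simp only [Pi.smul_apply, Submodule.coe_smul, RingHom.id_apply, Finset.smul_sum]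
        refine Finset.sum_congr rfl fun j _ => ?_
        rw [Algebra.smul_def, Algebra.smul_def, map_mul, ← IsScalarTower.algebraMap_apply, mul_assoc] }
  have hinj : Function.Injective Φ := by
    rw [← LinearMap.ker_eq_bot, LinearMap.ker_eq_bot']
    intro f hf
    have h3 : ∑ j, algebraMap K W (f j : K) * h ^ (j : ℕ) = 0 := congrArg Subtype.val hf
    have hdeg : (minpoly K h).natDegree = finrank K W := by
      rw [← IntermediateField.adjoin.finrank (Algebra.IsIntegral.isIntegral h), hh]
      exact IntermediateField.finrank_top'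
    have hli := linearIndependent_pow (K := K) h
    rw [hdeg, Fintype.linearIndependent_iff] at hli
    have h4 := hli (fun j => (f j : K)) (by simpa only [Algebra.smul_def] using h3)
    funext j
    exact Subtype.ext (h4 j)
  have hfK : FiniteDimensional k (Fin (finrank K W) → Lsp DK) := Module.Finite.of_injective Φ hinj
  have hfK1 : FiniteDimensional k (Lsp DK) :=
    Module.Finite.of_injective (LinearMap.single k (fun _ => Lsp DK) (⟨0, hδ⟩ : Fin (finrank K W)))
      (by
        intro a b hab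
        have h6 := congrFun hab ⟨0, hδ⟩
        simpa using h6)
  have h5 := LinearMap.finrank_le_finrank_of_injective hinj
  rw [Module.finrank_pi_fintype] at h5
  simpa using h5
-- END pull

variable [IsAlgClosed k] [CharZero k]

-- BEGIN cs
private theorem cs_dg {F : Type} [Field F] [Algebra k F] (P Q : Place k F →₀ ℤ) (a b : ℤ) :
    dg (a • P + b • Q) = a * dg P + b * dg Q := by
  unfold dg
  rw [Finsupp.sum_add_index' (fun _ => rfl) (fun _ _ _ => rfl),
    Finsupp.sum_smul_index' (fun _ => rfl), Finsupp.sum_smul_index' (fun _ => rfl),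
    Finsupp.mul_sum, Finsupp.mul_sum]
  rfl

theorem cs (hK : IsFunField k K) {h : W} (hh : IntermediateField.adjoin K {h} = ⊤)
    {γ g : ℕ} (hγ : IsGenus k K γ) (hg : IsGenus k W g) :
    (g : ℤ) ≤ finrank K W * γ + ((finrank K W : ℤ) - 1) * ((fdeg k h : ℤ) - 1) := by
  have hW : IsFunField k W := hK.of_finite
  obtain ⟨g0, hg0, hfin, hvan⟩ := van hW
  obtain rfl : g = g0 := gen_uniq hg hg0
  obtain ⟨x, hx, -⟩ := id hK
  have hx' : Transcendental k (algebraMap K W x) :=
    (transcendental_algebraMap_iff (R := k) (S := K) (A := W)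
      (algebraMap K W).injective (a := x)).2 hx
  obtain ⟨m, hm⟩ := hvan _ hx'
  obtain ⟨PK, hPK, hPKd⟩ := pol_div hK x
  obtain ⟨PW, hPW, hPWd⟩ := pol_div hW (algebraMap K W x)
  obtain ⟨Ph, hPh, hPhd⟩ := pol_div hW h
  rw [fd_tower] at hPWd
  have hδ : 0 < finrank K W := finrank_pos
  have hδ' : (1 : ℤ) ≤ (finrank K W : ℤ) := by omega
  have e1 := cs_dg PK (0 : Place k K →₀ ℤ) (m : ℤ) 0
  have e2 := cs_dg PW Ph (m : ℤ) ((finrank K W : ℤ) - 1)
  rw [zero_smul, add_zero, zero_mul, add_zero, hPKd] at e1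
  rw [hPWd, hPhd] at e2
  have h1 := hm ((m : ℤ) • PW + ((finrank K W : ℤ) - 1) • Ph) (by
    intro v
    rw [Finsupp.add_apply, Finsupp.smul_apply, Finsupp.smul_apply, hPW, hPh, smul_eq_mul,
      smul_eq_mul]
    have : 0 ≤ ((finrank K W : ℤ) - 1) * max 0 (-(v.ord h)) :=
      mul_nonneg (by omega) (le_max_left _ _)
    omega)
  have h2 := hγ.1 ((m : ℤ) • PK)
  have h3 := pull (k := k) (x := x) hh m ((m : ℤ) • PK) (by
    intro v
    rw [Finsupp.smul_apply, hPK, smul_eq_mul]) ((m : ℤ) • PW + ((finrank K W : ℤ) - 1) • Ph) (by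
    intro w
    rw [Finsupp.add_apply, Finsupp.smul_apply, Finsupp.smul_apply, hPW, hPh, smul_eq_mul,
      smul_eq_mul]) (hfin _)
  rw [e1] at h2
  rw [e2] at h1
  have h3' : (finrank K W : ℤ) * (finrank k (Lsp ((m : ℤ) • PK)) : ℤ) ≤
      (finrank k (Lsp ((m : ℤ) • PW + ((finrank K W : ℤ) - 1) • Ph)) : ℤ) := by exact_mod_cast h3
  rw [h1] at h3'
  push_cast at h3'
  have h4 : (finrank K W : ℤ) * ((m : ℤ) * (fdeg k x : ℤ) + 1 - γ) ≤
      (finrank K W : ℤ) * (finrank k (Lsp ((m : ℤ) • PK)) : ℤ) :=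
    mul_le_mul_of_nonneg_left (by linarith) (by omega)
  linarith
-- END cs

end tower

section low

variable {k W L : Type} [Field k] [Field W] [Field L] [Algebra k W] [Algebra k L] [Algebra W L]
  [IsScalarTower k W L] [FiniteDimensional W L] [IsAlgClosed k] [CharZero k]

-- BEGIN low
/-- Functions of small degree come from `W`. Otherwise `W' = W(c)` (`IntermediateField.adjoin W {c}`)
is not `⊥`; it is a function field (`IsFunField.of_finite`), let `g` be its genus (`van`),
`δ = finrank W W'`, `h = c` as an element of `W'`, `e1 = fdeg k h`. `fd_tower` (`W' ⊆ L`):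
`fdeg k c = e1 * finrank W' L`; `finrank W W' * finrank W' L = finrank W L`. So
`e1 * finrank W L = e1 * δ * finrank W' L ≤ n * δ`, `e1 ≤ n * δ / finrank W L`. `cs` for `W ⊆ W'`
(`adjoin W {h} = ⊤` in `W'`) contradicts `hB W'`; `1 ≤ e1` by `fd_pos`, `2 ≤ δ`. -/
theorem low (hW : IsFunField k W) {gW n : ℕ} (hg : IsGenus k W gW) (hB : Big k W L gW n) {c : L}
    (hc : Transcendental k c) (hn : fdeg k c ≤ n) : ∃ w : W, algebraMap W L w = c := by
  by_contra hno
  have hcm : c ∈ IntermediateField.adjoin W {c} := IntermediateField.mem_adjoin_simple_self W c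
  set W' : IntermediateField W L := IntermediateField.adjoin W {c} with hW'
  have hne : W' ≠ ⊥ := by
    intro h
    rw [h] at hcm
    exact hno (IntermediateField.mem_bot.1 hcm)
  have hfun : IsFunField k W' := IsFunField.of_finite hW
  have htower : IsScalarTower k W' L := IsScalarTower.of_algebraMap_eq fun x => rfl
  obtain ⟨g, hgen, -⟩ := van hfun
  have hh : IntermediateField.adjoin W {(⟨c, hcm⟩ : W')} = ⊤ := by
    apply IntermediateField.lift_injective W'
    rw [IntermediateField.lift_adjoin_simple, IntermediateField.lift_top]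
  have hcs := cs hW hh hg hgen
  have htow := fd_tower (k := k) (F := L) (⟨c, hcm⟩ : W')
  have hac : algebraMap W' L ⟨c, hcm⟩ = c := rfl
  rw [hac] at htow
  have htr : Transcendental k (⟨c, hcm⟩ : W') := by
    refine (transcendental_algebraMap_iff (R := k) (S := W') (A := L)
      (algebraMap W' L).injective (a := (⟨c, hcm⟩ : W'))).1 ?_
    rw [hac]
    exact hc
  have he1 := (fd_pos hfun _).2 htr
  have hmul : finrank W W' * finrank W' L = finrank W L := Module.finrank_mul_finrank W W' L
  have hbig := hB W' hne g hgen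
  have hδ : 0 < finrank W W' := Module.finrank_pos
  have hL : 0 < finrank W L := Module.finrank_pos
  set δ := finrank W W'
  set f := finrank W' L
  set e1 := fdeg k (⟨c, hcm⟩ : W')
  have hq : e1 ≤ n * δ / finrank W L := by
    rw [Nat.le_div_iff_mul_le hL, ← hmul]
    calc e1 * (δ * f) = (e1 * f) * δ := by ring
      _ ≤ n * δ := by
        apply Nat.mul_le_mul_right
        rw [← htow]
        exact hn
  set q := n * δ / finrank W L
  have hq1 : 1 ≤ q := le_trans he1 hq
  have hb : ((δ * gW + (δ - 1) * (q - 1) : ℕ) : ℤ) < g := by exact_mod_cast hbig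
  rw [Nat.cast_add, Nat.cast_mul, Nat.cast_mul, Nat.cast_sub hδ, Nat.cast_sub hq1] at hb
  have h1 : ((δ : ℤ) - 1) * ((e1 : ℤ) - 1) ≤ ((δ : ℤ) - 1) * ((q : ℤ) - 1) := by
    apply mul_le_mul_of_nonneg_left
    · have : (e1 : ℤ) ≤ q := by exact_mod_cast hq
      linarith
    · have : (1 : ℤ) ≤ δ := by exact_mod_cast hδ
      linarith
  push_cast at hb
  linarith
-- END low

end low

end Pool.Agent.CorD
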